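import Mathlib

set_option autoImplicit false

/-!
# Generic tools for homogeneous bent functions

* `IsHomOn A k F` : the Boolean function `F` is a sum of monomials with exactly `k` variables, all in `A`;
* closure under sums and under products with disjoint supports;
* the Walsh spectrum of a Maiorana-McFarland function after a linear change of variables.
-/

namespace Pool.Agent.P47443c

open Finset

/-- `F` is a sum of monomials with exactly `k` variables, all of them in `A`. -/
def IsHomOn {ι : Type*} [DecidableEq ι] (A : Finset ι) (k : ℕ) (F : (ι → ZMod 2) → ZMod 2) : Prop :=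
  ∃ S : Finset (Finset ι), (∀ s ∈ S, s.card = k ∧ s ⊆ A) ∧ ∀ x, F x = ∑ s ∈ S, ∏ i ∈ s, x i

section hom

variable {ι : Type*} [DecidableEq ι]

theorem IsHomOn.zero (A : Finset ι) (k : ℕ) : IsHomOn A k (fun _ => 0) :=
  ⟨∅, by simp, by simp⟩

theorem IsHomOn.congr {A : Finset ι} {k : ℕ} {F G : (ι → ZMod 2) → ZMod 2}
    (h : IsHomOn A k F) (e : ∀ x, G x = F x) : IsHomOn A k G := by
  obtain ⟨S, h1, h2⟩ := h
  exact ⟨S, h1, fun x => by rw [e, h2]⟩

theorem sum_symmDiff_zmod2 {α : Type*} [DecidableEq α] (S T : Finset α) (f : α → ZMod 2) :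
    ∑ s ∈ symmDiff S T, f s = ∑ s ∈ S, f s + ∑ s ∈ T, f s := by
  have h1 : ∑ s ∈ S, f s = ∑ s ∈ S \ T, f s + ∑ s ∈ S ∩ T, f s := by
    rw [← Finset.sum_union (Finset.disjoint_sdiff_inter S T), Finset.sdiff_union_inter]
  have h2 : ∑ s ∈ T, f s = ∑ s ∈ T \ S, f s + ∑ s ∈ S ∩ T, f s := by
    rw [Finset.inter_comm, ← Finset.sum_union (Finset.disjoint_sdiff_inter T S),
      Finset.sdiff_union_inter]
  have h3 : symmDiff S T = (S \ T) ∪ (T \ S) := by
    ext x; simp [Finset.mem_symmDiff]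
  have h4 : Disjoint (S \ T) (T \ S) := by
    rw [Finset.disjoint_left]; intro x; simp; tauto
  rw [h3, Finset.sum_union h4, h1, h2]
  have h5 : ∀ z : ZMod 2, z + z = 0 := by decide
  have h6 := h5 (∑ s ∈ S ∩ T, f s)
  linear_combination (-1 : ZMod 2) * h6

theorem IsHomOn.add {A : Finset ι} {k : ℕ} {F G : (ι → ZMod 2) → ZMod 2}
    (hF : IsHomOn A k F) (hG : IsHomOn A k G) : IsHomOn A k (fun x => F x + G x) := by
  obtain ⟨S, h1, h2⟩ := hF
  obtain ⟨T, h3, h4⟩ := hG
  refine ⟨symmDiff S T, ?_, ?_⟩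
  · intro s hs
    rcases Finset.mem_symmDiff.1 hs with h | h
    · exact h1 s h.1
    · exact h3 s h.1
  · intro x
    rw [sum_symmDiff_zmod2, ← h2, ← h4]

theorem IsHomOn.sum {A : Finset ι} {k : ℕ} {α : Type*} (T : Finset α)
    {F : α → (ι → ZMod 2) → ZMod 2} (hF : ∀ t ∈ T, IsHomOn A k (F t)) :
    IsHomOn A k (fun x => ∑ t ∈ T, F t x) := by
  classical
  induction T using Finset.induction_on with
  | empty => simpa using IsHomOn.zero A k
  | insert a T ha ih =>
    have h1 := hF a (Finset.mem_insert_self _ _)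
    have h2 := ih (fun t ht => hF t (Finset.mem_insert_of_mem ht))
    exact (h1.add h2).congr (fun x => by rw [Finset.sum_insert ha])

theorem IsHomOn.mono {A B : Finset ι} {k : ℕ} {F : (ι → ZMod 2) → ZMod 2}
    (hF : IsHomOn A k F) (h : A ⊆ B) : IsHomOn B k F := by
  obtain ⟨S, h1, h2⟩ := hF
  exact ⟨S, fun s hs => ⟨(h1 s hs).1, (h1 s hs).2.trans h⟩, h2⟩

theorem IsHomOn.monomial {A s : Finset ι} (h : s ⊆ A) :
    IsHomOn A s.card (fun x => ∏ i ∈ s, x i) :=
  ⟨{s}, by simpa using h, by simp⟩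

theorem IsHomOn.one (A : Finset ι) : IsHomOn A 0 (fun _ => 1) := by
  have h : IsHomOn A (∅ : Finset ι).card (fun x => ∏ i ∈ (∅ : Finset ι), x i) :=
    IsHomOn.monomial (Finset.empty_subset _)
  simpa using h

theorem IsHomOn.mul {A B : Finset ι} {k l : ℕ} {F G : (ι → ZMod 2) → ZMod 2}
    (hF : IsHomOn A k F) (hG : IsHomOn B l G) (hAB : Disjoint A B) :
    IsHomOn (A ∪ B) (k + l) (fun x => F x * G x) := by
  obtain ⟨S, h1, h2⟩ := hF
  obtain ⟨T, h3, h4⟩ := hG
  have h5 : IsHomOn (A ∪ B) (k + l) (fun x => ∑ s ∈ S, ∑ t ∈ T, ∏ i ∈ s ∪ t, x i) := by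
    refine IsHomOn.sum S (fun s hs => IsHomOn.sum T (fun t ht => ?_))
    have hd : Disjoint s t := Finset.disjoint_of_subset_left (h1 s hs).2
      (Finset.disjoint_of_subset_right (h3 t ht).2 hAB)
    have hc : (s ∪ t).card = k + l := by
      rw [Finset.card_union_of_disjoint hd, (h1 s hs).1, (h3 t ht).1]
    have := IsHomOn.monomial (A := A ∪ B) (s := s ∪ t)
      (Finset.union_subset_union (h1 s hs).2 (h3 t ht).2)
    rwa [hc] at this
  refine h5.congr (fun x => ?_)
  rw [h2, h4, Finset.sum_mul_sum]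
  refine Finset.sum_congr rfl (fun s hs => Finset.sum_congr rfl (fun t ht => ?_))
  have hd : Disjoint s t := Finset.disjoint_of_subset_left (h1 s hs).2
      (Finset.disjoint_of_subset_right (h3 t ht).2 hAB)
  rw [Finset.prod_union hd]

/-- A linear form (sum of distinct variables) is homogeneous of degree one. -/
theorem IsHomOn.linear (A : Finset ι) : IsHomOn A 1 (fun x => ∑ i ∈ A, x i) := by
  refine IsHomOn.sum A (fun i hi => ?_)
  have := IsHomOn.monomial (A := A) (s := {i}) (by simpa using hi)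
  simpa using this

/-- A product of forms with pairwise disjoint supports. -/
theorem IsHomOn.prod {α : Type*} [DecidableEq α] (T : Finset α) (A : α → Finset ι) (d : α → ℕ)
    {F : α → (ι → ZMod 2) → ZMod 2} (hF : ∀ t ∈ T, IsHomOn (A t) (d t) (F t))
    (hA : ∀ t ∈ T, ∀ t' ∈ T, t ≠ t' → Disjoint (A t) (A t')) :
    IsHomOn (T.biUnion A) (∑ t ∈ T, d t) (fun x => ∏ t ∈ T, F t x) := by
  induction T using Finset.induction_on with
  | empty => simpa using IsHomOn.one (∅ : Finset ι)
  | insert a T ha ih =>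
    have h1 := hF a (Finset.mem_insert_self _ _)
    have h2 := ih (fun t ht => hF t (Finset.mem_insert_of_mem ht))
      (fun t ht t' ht' => hA t (Finset.mem_insert_of_mem ht) t' (Finset.mem_insert_of_mem ht'))
    have h3 : Disjoint (A a) (T.biUnion A) := by
      rw [Finset.disjoint_biUnion_right]
      intro t ht
      exact hA a (Finset.mem_insert_self _ _) t (Finset.mem_insert_of_mem ht)
        (fun h => ha (h ▸ ht))
    have h4 := h1.mul h2 h3
    rw [Finset.biUnion_insert, Finset.sum_insert ha]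
    exact h4.congr (fun x => by rw [Finset.prod_insert ha])

/-- Transport of homogeneity along an equivalence of the index types. -/
theorem IsHomOn.transport {κ : Type*} [DecidableEq κ] (e : κ ≃ ι) {A : Finset ι} {k : ℕ}
    {F : (ι → ZMod 2) → ZMod 2} (hF : IsHomOn A k F) :
    IsHomOn (A.map e.symm.toEmbedding) k (fun x : κ → ZMod 2 => F (fun i => x (e.symm i))) := by
  obtain ⟨S, h1, h2⟩ := hF
  refine ⟨S.map (Finset.mapEmbedding e.symm.toEmbedding).toEmbedding, ?_, ?_⟩
  · intro s hs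
    rw [Finset.mem_map] at hs
    obtain ⟨t, ht, rfl⟩ := hs
    refine ⟨?_, ?_⟩
    · simp [(h1 t ht).1]
    · have := (h1 t ht).2
      simpa using this
  · intro x
    show F (fun i => x (e.symm i)) = _
    rw [h2, Finset.sum_map]
    refine Finset.sum_congr rfl (fun s _ => ?_)
    simp

end hom

/-! ## Walsh coefficients -/

/-- The sign character. -/
def sgn (z : ZMod 2) : ℤ := (-1 : ℤ) ^ z.val

theorem sgn_add (a b : ZMod 2) : sgn (a + b) = sgn a * sgn b := by
  revert a b; decide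

theorem sgn_zero : sgn 0 = 1 := by decide

theorem sgn_sq (a : ZMod 2) : sgn a ^ 2 = 1 := by revert a; decide

theorem sgn_sum {α : Type*} (s : Finset α) (f : α → ZMod 2) :
    sgn (∑ i ∈ s, f i) = ∏ i ∈ s, sgn (f i) := by
  classical
  induction s using Finset.induction_on with
  | empty => simp [sgn_zero]
  | insert a s ha ih => rw [Finset.sum_insert ha, Finset.prod_insert ha, sgn_add, ih]

theorem sum_sgn_linear {ι : Type*} [Fintype ι] [DecidableEq ι] (c : ι → ZMod 2) :
    ∑ p : ι → ZMod 2, sgn (∑ i, p i * c i) = if c = 0 then (2 : ℤ) ^ Fintype.card ι else 0 := by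
  have h1 : ∑ p : ι → ZMod 2, sgn (∑ i, p i * c i) = ∏ i, ∑ z : ZMod 2, sgn (z * c i) := by
    rw [Finset.prod_univ_sum]
    simp only [Fintype.piFinset_univ]
    exact Finset.sum_congr rfl (fun p _ => sgn_sum _ _)
  have h2 : ∀ z : ZMod 2, ∑ w : ZMod 2, sgn (w * z) = if z = 0 then 2 else 0 := by decide
  rw [h1]
  simp only [h2]
  split_ifs with h
  · subst h; simp
  · obtain ⟨i, hi⟩ := Function.ne_iff.1 h
    exact Finset.prod_eq_zero (Finset.mem_univ i) (by simpa using hi)

/-- Walsh coefficients of a Maiorana-McFarland function after a linear change of variables. -/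
theorem walsh_mm {ι κ : Type*} [Fintype ι] [DecidableEq ι] [Fintype κ] [DecidableEq κ]
    (D : κ → ι → ZMod 2) (pi : (κ → ZMod 2) → (ι → ZMod 2)) (hpi : Function.Bijective pi)
    (g : (κ → ZMod 2) → ZMod 2) (c : κ → ZMod 2) (d : ι → ZMod 2)
    (F : (κ → ZMod 2) → (ι → ZMod 2) → ZMod 2)
    (hF : ∀ a p, F a p = ∑ j, p j * pi (fun i => a i + ∑ l, D i l * p l) j
      + g (fun i => a i + ∑ l, D i l * p l)) :
    (∑ a : κ → ZMod 2, ∑ p : ι → ZMod 2,
      sgn (F a p + (∑ i, c i * a i + ∑ j, d j * p j))) ^ 2 = (2 : ℤ) ^ (2 * Fintype.card ι) := by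
  have hz : ∀ z : ZMod 2, z + z = 0 := by decide
  -- change the order of summation and substitute
  have h1 : ∑ a : κ → ZMod 2, ∑ p : ι → ZMod 2,
      sgn (F a p + (∑ i, c i * a i + ∑ j, d j * p j)) =
      ∑ y : κ → ZMod 2, ∑ p : ι → ZMod 2,
        sgn ((g y + ∑ i, c i * y i) + ∑ j, p j * (pi y j + (∑ i, c i * D i j) + d j)) := by
    rw [Finset.sum_comm]
    conv_rhs => rw [Finset.sum_comm]
    refine Finset.sum_congr rfl (fun p _ => ?_)
    let w : κ → ZMod 2 := fun i => ∑ l, D i l * p l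
    have hw : ∀ a : κ → ZMod 2, (fun i => a i + ∑ l, D i l * p l) = a + w := fun a => rfl
    refine Fintype.sum_equiv (Equiv.addRight w) _ _ (fun a => ?_)
    rw [Equiv.coe_addRight, hF, hw]
    congr 1
    have e1 : ∑ i, c i * (a + w) i = ∑ i, c i * a i + ∑ i, c i * w i := by
      simp [mul_add, Finset.sum_add_distrib]
    have e2 : ∑ i, c i * w i = ∑ j, p j * ∑ i, c i * D i j := by
      simp only [w, Finset.mul_sum]
      rw [Finset.sum_comm]
      refine Finset.sum_congr rfl (fun j _ => Finset.sum_congr rfl (fun i _ => by ring))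
    have e3 : ∑ j, p j * (pi (a + w) j + (∑ i, c i * D i j) + d j) =
        ∑ j, p j * pi (a + w) j + ∑ j, p j * (∑ i, c i * D i j) + ∑ j, d j * p j := by
      rw [← Finset.sum_add_distrib, ← Finset.sum_add_distrib]
      exact Finset.sum_congr rfl (fun j _ => by ring)
    rw [e3, e1, e2]
    have := hz (∑ j, p j * ∑ i, c i * D i j)
    linear_combination (-1 : ZMod 2) * this
  obtain ⟨y0, hy0⟩ := hpi.2 (fun j => (∑ i, c i * D i j) + d j)
  have h2 : ∀ y : κ → ZMod 2, ∑ p : ι → ZMod 2,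
        sgn ((g y + ∑ i, c i * y i) + ∑ j, p j * (pi y j + (∑ i, c i * D i j) + d j)) =
        if y = y0 then sgn (g y0 + ∑ i, c i * y0 i) * (2 : ℤ) ^ Fintype.card ι else 0 := by
    intro y
    have hs : ∀ p : ι → ZMod 2,
        sgn ((g y + ∑ i, c i * y i) + ∑ j, p j * (pi y j + (∑ i, c i * D i j) + d j)) =
        sgn (g y + ∑ i, c i * y i) * sgn (∑ j, p j * (pi y j + (∑ i, c i * D i j) + d j)) :=
      fun p => sgn_add _ _
    rw [Finset.sum_congr rfl (fun p _ => hs p), ← Finset.mul_sum, sum_sgn_linear (fun j => pi y j + (∑ i, c i * D i j) + d j)]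
    by_cases h : y = y0
    · subst h
      have : (fun j => pi y j + (∑ i, c i * D i j) + d j) = 0 := by
        funext j
        have h3 := congrFun hy0 j
        show pi y j + (∑ i, c i * D i j) + d j = 0
        rw [add_assoc, h3]
        exact hz _
      rw [if_pos this, if_pos rfl]
    · have : (fun j => pi y j + (∑ i, c i * D i j) + d j) ≠ 0 := by
        intro h3
        apply h
        apply hpi.1
        rw [hy0]
        funext j
        have h4 := congrFun h3 j
        simp only [Pi.zero_apply] at h4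
        have h5 := hz ((∑ i, c i * D i j) + d j)
        linear_combination h4 - h5
      rw [if_neg this, if_neg h, mul_zero]
  rw [h1]
  simp only [h2]
  rw [Finset.sum_ite_eq' Finset.univ y0]
  simp only [Finset.mem_univ, if_true]
  rw [mul_pow, sgn_sq, one_mul, ← pow_mul, mul_comm]

/-- Assembly: a homogeneous Maiorana-McFarland function gives what the frozen statement asks. -/
theorem exists_of_mm {ι κ : Type*} [Fintype ι] [DecidableEq ι] [Fintype κ] [DecidableEq κ]
    (n k : ℕ) (hn : n = Fintype.card κ + Fintype.card ι) (hικ : Fintype.card κ = Fintype.card ι)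
    (D : κ → ι → ZMod 2) (pi : (κ → ZMod 2) → (ι → ZMod 2)) (hpi : Function.Bijective pi)
    (g : (κ → ZMod 2) → ZMod 2)
    (F : (κ → ZMod 2) → (ι → ZMod 2) → ZMod 2)
    (hF : ∀ a p, F a p = ∑ j, p j * pi (fun i => a i + ∑ l, D i l * p l) j
      + g (fun i => a i + ∑ l, D i l * p l))
    (hom : ∃ A : Finset (κ ⊕ ι), IsHomOn A k (fun x => F (fun i => x (Sum.inl i))
      (fun j => x (Sum.inr j)))) :
    ∃ S : Finset (Finset (Fin n)), (∀ s ∈ S, s.card = k) ∧
        ∀ a : Fin n → ZMod 2,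
          (∑ x : Fin n → ZMod 2,
              (-1 : ℤ) ^ (ZMod.val ((∑ s ∈ S, ∏ i ∈ s, x i) + ∑ i : Fin n, a i * x i))) ^ 2
            = 2 ^ n := by
  have hcard : Fintype.card (Fin n) = Fintype.card (κ ⊕ ι) := by
    rw [Fintype.card_fin, Fintype.card_sum, hn]
  let e : Fin n ≃ κ ⊕ ι := Fintype.equivOfCardEq hcard
  obtain ⟨A, hA⟩ := hom
  obtain ⟨S, h1, h2⟩ := hA.transport e
  refine ⟨S, fun s hs => (h1 s hs).1, fun a => ?_⟩
  have h3 := walsh_mm D pi hpi g (fun i => a (e.symm (Sum.inl i))) (fun j => a (e.symm (Sum.inr j)))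
    F hF
  have h4 : (∑ x : Fin n → ZMod 2,
      (-1 : ℤ) ^ (ZMod.val ((∑ s ∈ S, ∏ i ∈ s, x i) + ∑ i : Fin n, a i * x i))) =
      ∑ u : κ → ZMod 2, ∑ p : ι → ZMod 2,
      sgn (F u p + (∑ i, a (e.symm (Sum.inl i)) * u i + ∑ j, a (e.symm (Sum.inr j)) * p j)) := by
    rw [← Fintype.sum_prod_type']
    let E : (Fin n → ZMod 2) ≃ (κ → ZMod 2) × (ι → ZMod 2) :=
      (Equiv.arrowCongr e (Equiv.refl _)).trans (Equiv.sumArrowEquivProdArrow κ ι (ZMod 2))
    refine Fintype.sum_equiv E _ _ (fun x => ?_)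
    have e1 : (E x).1 = fun i => x (e.symm (Sum.inl i)) := rfl
    have e2 : (E x).2 = fun j => x (e.symm (Sum.inr j)) := rfl
    rw [e1, e2, ← h2 x]
    unfold sgn
    congr 3
    rw [← Equiv.sum_comp e.symm, Fintype.sum_sum_type]
  rw [h4, h3]
  congr 1
  rw [hn, hικ]; ring

end Pool.Agent.P47443c
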