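import Mathlib
import Pool.Agent.Lib.P47443c.Basic

set_option autoImplicit false

namespace Pool.Agent.P47443c

open Finset

/-- The elementary symmetric function of degree `r` of the values `v i`, `i ∈ M`. -/
def esym {ι : Type*} (M : Finset ι) (r : ℕ) (v : ι → ZMod 2) : ZMod 2 :=
  ∑ T ∈ M.powersetCard r, ∏ i ∈ T, v i

theorem zmod2_eq_one {z : ZMod 2} (h : z ≠ 0) : z = 1 := by revert z; decide

theorem esym_eq {ι : Type*} [DecidableEq ι] (M : Finset ι) (r : ℕ) (v : ι → ZMod 2) :
    esym M r v = (((M.filter (fun i => v i = 1)).card.choose r : ℕ) : ZMod 2) := by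
  unfold esym
  have h1 : ∀ T ∈ M.powersetCard r, ∏ i ∈ T, v i =
      if T ∈ (M.filter (fun i => v i = 1)).powersetCard r then (1 : ZMod 2) else 0 := by
    intro T hT
    rw [Finset.mem_powersetCard] at hT
    split_ifs with h
    · rw [Finset.mem_powersetCard] at h
      exact Finset.prod_eq_one (fun i hi => (Finset.mem_filter.1 (h.1 hi)).2)
    · have : ∃ i ∈ T, v i = 0 := by
        by_contra hc
        push Not at hc
        apply h
        rw [Finset.mem_powersetCard]
        exact ⟨fun i hi => Finset.mem_filter.2 ⟨hT.1 hi, zmod2_eq_one (hc i hi)⟩, hT.2⟩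
      obtain ⟨i, hi, h0⟩ := this
      exact Finset.prod_eq_zero hi h0
  rw [Finset.sum_congr rfl h1, ← Finset.sum_filter]
  have h2 : (M.powersetCard r).filter
      (fun T => T ∈ (M.filter (fun i => v i = 1)).powersetCard r) =
      (M.filter (fun i => v i = 1)).powersetCard r := by
    ext T
    simp only [Finset.mem_filter, Finset.mem_powersetCard]
    constructor
    · exact fun h => h.2
    · exact fun h => ⟨⟨h.1.trans (Finset.filter_subset _ _), h.2⟩, h⟩
  rw [h2, Finset.sum_const, Finset.card_powersetCard, nsmul_eq_mul, mul_one]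

theorem choose_two_pow (e : ℕ) : ∀ w : ℕ, w < 2 ^ (e + 1) →
    ((w.choose (2 ^ e) : ℕ) : ZMod 2) = if 2 ^ e ≤ w then 1 else 0 := by
  induction e with
  | zero =>
    intro w hw
    have : w = 0 ∨ w = 1 := by omega
    rcases this with h | h <;> subst h <;> decide
  | succ e ih =>
    intro w hw
    have hp : Fact (Nat.Prime 2) := ⟨Nat.prime_two⟩
    have h1 := Choose.choose_modEq_choose_mod_mul_choose_div_nat (n := w) (k := 2 ^ (e + 1))
      (p := 2)
    have h2 : 2 ^ (e + 1) % 2 = 0 := by
      rw [pow_succ]; omega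
    have h3 : 2 ^ (e + 1) / 2 = 2 ^ e := by
      rw [pow_succ]; omega
    rw [h2, h3, Nat.choose_zero_right, one_mul] at h1
    have h4 : ((w.choose (2 ^ (e + 1)) : ℕ) : ZMod 2) = (((w / 2).choose (2 ^ e) : ℕ) : ZMod 2) :=
      (ZMod.natCast_eq_natCast_iff _ _ _).2 h1
    rw [h4, ih (w / 2) (by rw [pow_succ] at hw; omega)]
    have h5 : (2 ^ e ≤ w / 2) ↔ (2 ^ (e + 1) ≤ w) := by
      rw [pow_succ]; omega
    simp only [h5]

/-- Self-duality: for `|M| = 2^{e+1}-1`, complementing all the inputs complements `esym M (2^e)`. -/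
theorem esym_selfdual {ι : Type*} [DecidableEq ι] (M : Finset ι) (e : ℕ)
    (hM : M.card = 2 ^ (e + 1) - 1) (v : ι → ZMod 2) (t : ZMod 2) :
    esym M (2 ^ e) (fun i => v i + t) = esym M (2 ^ e) v + t := by
  by_cases ht : t = 0
  · subst ht; simp
  · have ht1 := zmod2_eq_one ht
    subst ht1
    rw [esym_eq, esym_eq]
    have h1 : (M.filter (fun i => v i + 1 = 1)) = M.filter (fun i => ¬ v i = 1) := by
      apply Finset.filter_congr
      intro i _
      generalize v i = z
      revert z; decide
    rw [h1]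
    have h2 := Finset.card_filter_add_card_filter_not (s := M) (fun i => v i = 1)
    set a := (M.filter (fun i => v i = 1)).card
    set b := (M.filter (fun i => ¬ v i = 1)).card
    have hpos : 0 < 2 ^ e := by positivity
    have hpow : 2 ^ (e + 1) = 2 * 2 ^ e := by rw [pow_succ]; ring
    rw [choose_two_pow e a (by omega), choose_two_pow e b (by omega)]
    have h3 : (2 ^ e ≤ b) ↔ ¬ (2 ^ e ≤ a) := by omega
    simp only [h3]
    by_cases h4 : 2 ^ e ≤ a <;> simp [h4]
    decide

end Pool.Agent.P47443c
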