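import Mathlib
import Pool.Agent.Lib.P47443c.SelfDual

set_option autoImplicit false

namespace Pool.Agent.P47443c

open Finset

section design

variable {ι : Type*} [Fintype ι] [DecidableEq ι]

/-- Incidence matrix of the family `M`. -/
def inc (M : ι → Finset ι) (i l : ι) : ZMod 2 := if i ∈ M l then 1 else 0

/-- Support of the linear form `y_i` with the contribution of `p_j` removed. -/
def suppY (M : ι → Finset ι) (i j : ι) : Finset (ι ⊕ ι) :=
  insert (Sum.inl i) ((univ.filter (fun l => l ≠ j ∧ i ∈ M l)).map ⟨Sum.inr, Sum.inr_injective⟩)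

/-- The form `y_i` without the contribution of `p_j`. -/
def formY (M : ι → Finset ι) (i j : ι) (a p : ι → ZMod 2) : ZMod 2 :=
  a i + ∑ l ∈ univ.filter (fun l => l ≠ j), inc M i l * p l

theorem formY_eq (M : ι → Finset ι) (i j : ι) (x : ι ⊕ ι → ZMod 2) :
    formY M i j (fun i => x (Sum.inl i)) (fun j => x (Sum.inr j)) = ∑ c ∈ suppY M i j, x c := by
  unfold formY suppY
  rw [Finset.sum_insert (by simp), Finset.sum_map]
  congr 1
  have : (univ.filter (fun l => l ≠ j ∧ i ∈ M l)) = (univ.filter (fun l => l ≠ j)).filter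
      (fun l => i ∈ M l) := by
    rw [Finset.filter_filter]
  rw [this]
  conv_rhs => rw [Finset.sum_filter]
  refine Finset.sum_congr rfl (fun l _ => ?_)
  unfold inc
  split_ifs <;> simp

theorem formY_add (M : ι → Finset ι) (i j : ι) (a p : ι → ZMod 2) :
    a i + ∑ l, inc M i l * p l = formY M i j a p + inc M i j * p j := by
  unfold formY
  have h := Finset.sum_filter_add_sum_filter_not (univ : Finset ι) (fun l => l ≠ j)
    (fun l => inc M i l * p l)
  have h2 : (univ.filter (fun l => ¬ (l ≠ j))) = {j} := by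
    ext l; simp
  rw [h2, Finset.sum_singleton] at h
  rw [← h]; ring

/-- The function attached to a design. -/
def Fdes (e : ℕ) (M : ι → Finset ι) (a p : ι → ZMod 2) : ZMod 2 :=
  ∑ j, formY M j j a p * esym (M j) (2 ^ e) (fun i => formY M i j a p)

omit [Fintype ι] [DecidableEq ι] in
theorem esym_congr (M : Finset ι) (r : ℕ) (v w : ι → ZMod 2) (h : ∀ i ∈ M, v i = w i) :
    esym M r v = esym M r w := by
  unfold esym
  refine Finset.sum_congr rfl (fun T hT => Finset.prod_congr rfl (fun i hi => h i ?_))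
  exact (Finset.mem_powersetCard.1 hT).1 hi

theorem Fdes_mm (e : ℕ) (M : ι → Finset ι) (h1 : ∀ j, (M j).card = 2 ^ (e + 1) - 1)
    (h2 : ∀ j, j ∉ M j) (a p : ι → ZMod 2) :
    Fdes e M a p = ∑ j, p j * (fun i => a i + ∑ l, inc M i l * p l) j +
      ∑ j, (fun i => a i + ∑ l, inc M i l * p l) j *
        esym (M j) (2 ^ e) (fun i => a i + ∑ l, inc M i l * p l) := by
  rw [← Finset.sum_add_distrib]
  refine Finset.sum_congr rfl (fun j _ => ?_)
  have e1 : a j + ∑ l, inc M j l * p l = formY M j j a p := by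
    rw [formY_add M j j]
    have : inc M j j = 0 := by simp [inc, h2 j]
    rw [this]; ring
  have e2 : esym (M j) (2 ^ e) (fun i => a i + ∑ l, inc M i l * p l) =
      esym (M j) (2 ^ e) (fun i => formY M i j a p) + p j := by
    rw [← esym_selfdual (M j) e (h1 j)]
    refine esym_congr _ _ _ _ (fun i hi => ?_)
    rw [formY_add M i j]
    have : inc M i j = 1 := by simp [inc, hi]
    rw [this]; ring
  rw [e2]
  simp only [e1]
  have hz : ∀ z : ZMod 2, z + z = 0 := by decide
  have := hz (p j * formY M j j a p)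
  linear_combination (-1 : ZMod 2) * this

theorem Fdes_hom (e : ℕ) (M : ι → Finset ι)
    (h2 : ∀ j, j ∉ M j)
    (h3 : ∀ l j, l ≠ j → ∀ i ∈ M l, ∀ i' ∈ M l, i ∈ insert j (M j) → i' ∈ insert j (M j) →
      i = i') :
    IsHomOn (univ : Finset (ι ⊕ ι)) (2 ^ e + 1) (fun x => Fdes e M (fun i => x (Sum.inl i))
      (fun j => x (Sum.inr j))) := by
  unfold Fdes
  refine IsHomOn.sum _ (fun j _ => ?_)
  unfold esym
  have key : ∀ T ∈ (M j).powersetCard (2 ^ e), IsHomOn (univ : Finset (ι ⊕ ι)) (2 ^ e + 1)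
      (fun x => ∏ i ∈ insert j T, formY M i j (fun i => x (Sum.inl i))
        (fun j => x (Sum.inr j))) := by
    intro T hT
    rw [Finset.mem_powersetCard] at hT
    have hjT : j ∉ T := fun h => h2 j (hT.1 h)
    have hsub : insert j T ⊆ insert j (M j) := Finset.insert_subset_insert _ hT.1
    have := IsHomOn.prod (insert j T) (fun i => suppY M i j) (fun _ => 1)
      (F := fun i x => formY M i j (fun i => x (Sum.inl i)) (fun j => x (Sum.inr j)))
      (fun i hi => (IsHomOn.linear (suppY M i j)).congr (fun x => formY_eq M i j x))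
      (by
        intro i hi i' hi' hne
        rw [Finset.disjoint_left]
        intro c hc hc'
        unfold suppY at hc hc'
        rw [Finset.mem_insert, Finset.mem_map] at hc hc'
        rcases hc with hc | ⟨l, hl, hc⟩
        · rcases hc' with hc' | ⟨l', hl', hc'⟩
          · rw [hc] at hc'
            exact hne (Sum.inl_injective hc')
          · rw [hc] at hc'
            simp at hc'
        · rcases hc' with hc' | ⟨l', hl', hc'⟩
          · rw [hc'] at hc
            simp at hc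
          · rw [← hc'] at hc
            have hll : l = l' := Sum.inr_injective hc
            subst hll
            rw [Finset.mem_filter] at hl hl'
            exact hne (h3 l j hl.2.1 i hl.2.2 i' hl'.2.2 (hsub hi) (hsub hi')))
    have hs : ∑ t ∈ insert j T, (fun _ => 1 : ι → ℕ) t = 2 ^ e + 1 := by
      rw [Finset.sum_const, Finset.card_insert_of_notMem hjT, hT.2]; simp
    rw [hs] at this
    exact this.mono (Finset.subset_univ _)
  refine (IsHomOn.sum _ key).congr (fun x => ?_)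
  rw [Finset.mul_sum]
  refine Finset.sum_congr rfl (fun T hT => ?_)
  rw [Finset.mem_powersetCard] at hT
  have hjT : j ∉ T := fun h => h2 j (hT.1 h)
  rw [Finset.prod_insert hjT]

theorem exists_of_design (e n : ℕ) (hn : n = 2 * Fintype.card ι) (M : ι → Finset ι)
    (h1 : ∀ j, (M j).card = 2 ^ (e + 1) - 1)
    (h2 : ∀ j, j ∉ M j)
    (h3 : ∀ l j, l ≠ j → ∀ i ∈ M l, ∀ i' ∈ M l, i ∈ insert j (M j) → i' ∈ insert j (M j) →
      i = i') :
    ∃ S : Finset (Finset (Fin n)), (∀ s ∈ S, s.card = 2 ^ e + 1) ∧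
        ∀ a : Fin n → ZMod 2,
          (∑ x : Fin n → ZMod 2,
              (-1 : ℤ) ^ (ZMod.val ((∑ s ∈ S, ∏ i ∈ s, x i) + ∑ i : Fin n, a i * x i))) ^ 2
            = 2 ^ n := by
  refine exists_of_mm n (2 ^ e + 1) (by rw [hn]; ring) rfl (inc M) (fun y => y)
    Function.bijective_id (fun y => ∑ j, y j * esym (M j) (2 ^ e) y) (Fdes e M)
    (fun a p => Fdes_mm e M h1 h2 a p) ⟨univ, Fdes_hom e M h2 h3⟩

end design

/-! ## A Sidon set of powers of three -/

theorem three_pow_sidon (a b c d : ℕ) (h : 3 ^ a + 3 ^ d = 3 ^ b + 3 ^ c) :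
    (a = b ∧ d = c) ∨ (a = c ∧ d = b) := by
  -- size argument
  have key : ∀ a b c d : ℕ, d ≤ a → c ≤ b → 3 ^ a + 3 ^ d = 3 ^ b + 3 ^ c → a ≤ b := by
    intro a b c d _ h2 h
    by_contra hlt
    push Not at hlt
    have h3 : 3 ^ c ≤ 3 ^ b := Nat.pow_le_pow_right (by norm_num) h2
    have h4 : 3 ^ (b + 1) ≤ 3 ^ a := Nat.pow_le_pow_right (by norm_num) hlt
    have h5 : 0 < 3 ^ b := by positivity
    have h6 : 0 < 3 ^ d := by positivity
    rw [pow_succ] at h4
    omega
  have inj : ∀ u v : ℕ, 3 ^ u = 3 ^ v → u = v := fun u v h =>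
    Nat.pow_right_injective (le_refl 2 |>.trans (by norm_num)) h
  rcases le_total d a with h1 | h1 <;> rcases le_total c b with h2 | h2
  · left
    have h3 := key a b c d h1 h2 h
    have h4 := key b a d c h2 h1 h.symm
    have h5 : a = b := le_antisymm h3 h4
    subst h5
    exact ⟨rfl, inj _ _ (by omega)⟩
  · right
    have h3 := key a c b d h1 h2 (by omega)
    have h4 := key c a d b h2 h1 (by omega)
    have h5 : a = c := le_antisymm h3 h4
    subst h5
    exact ⟨rfl, inj _ _ (by omega)⟩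
  · right
    have h3 := key d b c a h1 h2 (by omega)
    have h4 := key b d a c h2 h1 (by omega)
    have h5 : d = b := le_antisymm h3 h4
    subst h5
    exact ⟨inj _ _ (by omega), rfl⟩
  · left
    have h3 := key d c b a h1 h2 (by omega)
    have h4 := key c d a b h2 h1 (by omega)
    have h5 : d = c := le_antisymm h3 h4
    subst h5
    exact ⟨inj _ _ (by omega), rfl⟩

/-- Sidon property modulo `m`. -/
theorem three_pow_sidon_mod (m L : ℕ) (hm : 2 * 3 ^ L < m) (a b c d : ℕ) (ha : a < L) (hb : b < L)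
    (hc : c < L) (hd : d < L)
    (h : ((3 ^ a : ℕ) : ZMod m) + ((3 ^ d : ℕ) : ZMod m) =
      ((3 ^ b : ℕ) : ZMod m) + ((3 ^ c : ℕ) : ZMod m)) :
    (a = b ∧ d = c) ∨ (a = c ∧ d = b) := by
  apply three_pow_sidon
  have h1 : ∀ u < L, 3 ^ u < 3 ^ L := fun u hu => Nat.pow_lt_pow_right (by norm_num) hu
  have h2 := h1 a ha
  have h3 := h1 b hb
  have h4 := h1 c hc
  have h5 := h1 d hd
  rw [← Nat.cast_add, ← Nat.cast_add, ZMod.natCast_eq_natCast_iff] at h
  exact Nat.ModEq.eq_of_lt_of_lt h (by omega) (by omega)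

/-- The translates of a Sidon set. -/
def MSidon (m e : ℕ) (j : ZMod m) : Finset (ZMod m) :=
  (Finset.Ico 1 (2 ^ (e + 1))).image (fun t => j - 1 + ((3 ^ t : ℕ) : ZMod m))

theorem mem_MSidon {m e : ℕ} {j i : ZMod m} : i ∈ MSidon m e j ↔
    ∃ t : ℕ, 1 ≤ t ∧ t < 2 ^ (e + 1) ∧ i = j - 1 + ((3 ^ t : ℕ) : ZMod m) := by
  unfold MSidon
  simp only [Finset.mem_image, Finset.mem_Ico]
  constructor
  · rintro ⟨t, ⟨h1, h2⟩, h3⟩
    exact ⟨t, h1, h2, h3.symm⟩
  · rintro ⟨t, h1, h2, h3⟩
    exact ⟨t, ⟨h1, h2⟩, h3.symm⟩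

theorem mem_insert_MSidon {m e : ℕ} {j i : ZMod m} (h : i ∈ insert j (MSidon m e j)) :
    ∃ t : ℕ, t < 2 ^ (e + 1) ∧ i = j - 1 + ((3 ^ t : ℕ) : ZMod m) := by
  rw [Finset.mem_insert] at h
  rcases h with h | h
  · exact ⟨0, by positivity, by rw [h]; simp⟩
  · obtain ⟨t, _, h2, h3⟩ := mem_MSidon.1 h
    exact ⟨t, h2, h3⟩

theorem exists_pow (e : ℕ) (n : ℕ) (hn : 4 * 3 ^ (2 ^ (e + 1)) < n) (heven : Even n) :
    ∃ S : Finset (Finset (Fin n)), (∀ s ∈ S, s.card = 2 ^ e + 1) ∧
        ∀ a : Fin n → ZMod 2,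
          (∑ x : Fin n → ZMod 2,
              (-1 : ℤ) ^ (ZMod.val ((∑ s ∈ S, ∏ i ∈ s, x i) + ∑ i : Fin n, a i * x i))) ^ 2
            = 2 ^ n := by
  obtain ⟨m, hm⟩ := heven
  have hm2 : 2 * 3 ^ (2 ^ (e + 1)) < m := by omega
  have hne : NeZero m := ⟨by omega⟩
  have sid := three_pow_sidon_mod m (2 ^ (e + 1)) hm2
  have inj : ∀ a < 2 ^ (e + 1), ∀ b < 2 ^ (e + 1),
      ((3 ^ a : ℕ) : ZMod m) = ((3 ^ b : ℕ) : ZMod m) → a = b := by
    intro a ha b hb h
    rcases sid a b b b ha hb hb hb (by rw [h]) with h | h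
    · exact h.1
    · exact h.1
  refine exists_of_design (ι := ZMod m) e n (by rw [ZMod.card, hm]; ring) (MSidon m e) ?_ ?_ ?_
  · intro j
    unfold MSidon
    rw [Finset.card_image_of_injOn, Nat.card_Ico]
    intro a ha b hb h
    rw [Finset.coe_Ico, Set.mem_Ico] at ha hb
    exact inj a ha.2 b hb.2 (by simpa using h)
  · intro j hj
    obtain ⟨t, h1, h2, h3⟩ := mem_MSidon.1 hj
    have h4 : ((3 ^ 0 : ℕ) : ZMod m) = ((3 ^ t : ℕ) : ZMod m) := by
      rw [pow_zero, Nat.cast_one]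
      linear_combination h3
    have := inj 0 (by positivity) t h2 h4
    omega
  · intro l j hlj i hi i' hi' hj hj'
    obtain ⟨t, h1, h2, h3⟩ := mem_MSidon.1 hi
    obtain ⟨t', h1', h2', h3'⟩ := mem_MSidon.1 hi'
    obtain ⟨s, h4, h5⟩ := mem_insert_MSidon hj
    obtain ⟨s', h4', h5'⟩ := mem_insert_MSidon hj'
    -- `3^t - 3^t' = 3^s - 3^s'`
    have h6 : ((3 ^ t : ℕ) : ZMod m) + ((3 ^ s' : ℕ) : ZMod m) =
        ((3 ^ s : ℕ) : ZMod m) + ((3 ^ t' : ℕ) : ZMod m) := by
      linear_combination h5 - h3 - h5' + h3'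
    rcases sid t s t' s' h2 h4 h2' h4' h6 with h | h
    · exfalso
      apply hlj
      rw [h.1] at h3
      linear_combination h5 - h3
    · rw [h3, h3', h.1]

end Pool.Agent.P47443c
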