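import Mathlib
import Pool.Agent.Lib.P47443c.Design

set_option autoImplicit false

/-!
# Degree `2 ^ a + 2`

A two-round Feistel permutation: vertices `i : I` carry bits `t i`, edges `e : E` carry bits `b e`,
and the permutation is `(t, b) ↦ (t i + esym (out i) q B, B)` with `B e = b e + t (src e) * t (tgt e)`.
-/

namespace Pool.Agent.P47443c

open Finset

theorem zmod2_add_self (z : ZMod 2) : z + z = 0 := by revert z; decide

theorem zmod2_mul_self (z : ZMod 2) : z * z = z := by revert z; decide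

/-- For `|M| = 2q-2`, `q = 2^(a+1)`. -/
theorem esym_shift {α : Type*} [DecidableEq α] (M : Finset α) (a : ℕ)
    (hM : M.card = 2 ^ (a + 2) - 2) (h : α → ZMod 2) (p : ZMod 2) :
    esym M (2 ^ (a + 1)) (fun i => h i + p) + p * esym M (2 ^ (a + 1) - 1) (fun i => h i + p) =
      esym M (2 ^ (a + 1)) h + p := by
  by_cases hp : p = 0
  · subst hp; simp
  · have hp1 := zmod2_eq_one hp
    subst hp1
    rw [esym_eq, esym_eq, esym_eq]
    have h1 : (M.filter (fun i => h i + 1 = 1)) = M.filter (fun i => ¬ h i = 1) := by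
      apply Finset.filter_congr
      intro i _
      generalize h i = z
      revert z; decide
    rw [h1]
    have h2 := Finset.card_filter_add_card_filter_not (s := M) (fun i => h i = 1)
    set u := (M.filter (fun i => h i = 1)).card
    set w := (M.filter (fun i => ¬ h i = 1)).card
    have hpos : 0 < 2 ^ a := by positivity
    have e1 : 2 ^ (a + 2) = 4 * 2 ^ a := by rw [pow_add]; ring
    have e2 : 2 ^ (a + 1) = 2 * 2 ^ a := by rw [pow_add]; ring
    have h3 : ((w.choose (2 ^ (a + 1)) : ℕ) : ZMod 2) + 1 * ((w.choose (2 ^ (a + 1) - 1) : ℕ) : ZMod 2) =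
        (((w + 1).choose (2 ^ (a + 1)) : ℕ) : ZMod 2) := by
      obtain ⟨r, hr⟩ : ∃ r, 2 ^ (a + 1) = r + 1 := ⟨2 ^ (a + 1) - 1, by omega⟩
      rw [one_mul, hr, Nat.choose_succ_succ w r, Nat.add_sub_cancel]
      push_cast
      ring
    rw [h3, choose_two_pow (a + 1) u (by rw [show a + 1 + 1 = a + 2 from rfl]; omega),
      choose_two_pow (a + 1) (w + 1) (by rw [show a + 1 + 1 = a + 2 from rfl]; omega)]
    have h4 : (2 ^ (a + 1) ≤ w + 1) ↔ ¬ (2 ^ (a + 1) ≤ u) := by omega
    simp only [h4]
    by_cases h5 : 2 ^ (a + 1) ≤ u <;> simp [h5]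
    decide

theorem esym_mul_sum {α : Type*} [DecidableEq α] (M : Finset α) (q : ℕ) (hq : Even q)
    (b : α → ZMod 2) : esym M q b * ∑ i ∈ M, b i = esym M (q + 1) b := by
  have h1 : ∑ i ∈ M, b i = (((M.filter (fun i => b i = 1)).card : ℕ) : ZMod 2) := by
    rw [Finset.card_filter, Nat.cast_sum]
    refine Finset.sum_congr rfl (fun i _ => ?_)
    generalize b i = z
    revert z; decide
  rw [h1, esym_eq, esym_eq]
  set w := (M.filter (fun i => b i = 1)).card
  have h2 := Nat.choose_succ_right_eq w q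
  have hq2 : ((q : ℕ) : ZMod 2) = 0 := by
    rw [ZMod.natCast_eq_zero_iff]; exact hq.two_dvd
  by_cases hw : q ≤ w
  · have h3 : ((w.choose (q + 1) * (q + 1) : ℕ) : ZMod 2) = ((w.choose q * (w - q) : ℕ) : ZMod 2) := by
      rw [h2]
    push_cast [Nat.cast_sub hw] at h3
    rw [hq2] at h3
    simpa using h3.symm
  · have h3 : w.choose q = 0 := Nat.choose_eq_zero_of_lt (by omega)
    have h4 : w.choose (q + 1) = 0 := Nat.choose_eq_zero_of_lt (by omega)
    rw [h3, h4]; simp

theorem esym_mux {α : Type*} (M : Finset α) (q : ℕ) (t : ZMod 2) (c b : α → ZMod 2) :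
    esym M q (fun i => t * c i + b i) =
      t * esym M q (fun i => c i + b i) + (1 + t) * esym M q b := by
  by_cases ht : t = 0
  · subst ht; simp
  · have := zmod2_eq_one ht
    subst this
    have h2 : (1 : ZMod 2) + 1 = 0 := by decide
    simp [h2]

/-- Homogeneity of elementary symmetric functions of linear forms with disjoint supports. -/
theorem esym_hom {κ α : Type*} [DecidableEq κ] [DecidableEq α] (M : Finset α) (r : ℕ)
    (A : α → Finset κ) (hA : ∀ i ∈ M, ∀ j ∈ M, i ≠ j → Disjoint (A i) (A j)) :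
    IsHomOn (M.biUnion A) r (fun x => esym M r (fun i => ∑ c ∈ A i, x c)) := by
  unfold esym
  refine IsHomOn.sum _ (fun T hT => ?_)
  rw [Finset.mem_powersetCard] at hT
  have h1 := IsHomOn.prod T A (fun _ => 1) (F := fun i x => ∑ c ∈ A i, x c)
    (fun i _ => IsHomOn.linear (A i)) (fun i hi j hj => hA i (hT.1 hi) j (hT.1 hj))
  have h2 : ∑ t ∈ T, (fun _ => 1 : α → ℕ) t = r := by simp [hT.2]
  rw [h2] at h1
  exact h1.mono (Finset.biUnion_subset_biUnion_of_subset_left A hT.1)

end Pool.Agent.P47443c
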