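import Mathlib
import Pool.Agent.Lib.P47443c.Two

set_option autoImplicit false
set_option linter.unusedSectionVars false
set_option linter.unusedVariables false

namespace Pool.Agent.P47443c

open Finset

section feistel

variable {I E : Type*} [Fintype I] [DecidableEq I] [Fintype E] [DecidableEq E]

/-- The coordinates: `inl` are the `a`-coordinates, `inr` the `p`-coordinates. -/
abbrev Coord (I E : Type*) := (I ⊕ E) ⊕ (I ⊕ E)

/-- Sum of the variables in a finite set. -/
def lin {κ : Type*} (A : Finset κ) (z : κ → ZMod 2) : ZMod 2 := ∑ c ∈ A, z c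

/-- The coordinates occurring in the form `t x`. -/
def TT (τ : Coord I E → Finset I) (x : I) : Finset (Coord I E) := univ.filter (fun c => x ∈ τ c)

theorem mem_TT {τ : Coord I E → Finset I} {x : I} {c : Coord I E} : c ∈ TT τ x ↔ x ∈ τ c := by
  simp [TT]

/-- The matrix of the linear change of variables. -/
def DD (τ : Coord I E → Finset I) (c : I ⊕ E) (p : I ⊕ E) : ZMod 2 :=
  match c with
  | Sum.inl x => if x ∈ τ (Sum.inr p) then 1 else 0
  | Sum.inr _ => 0

/-- The form `t x` in terms of `y`. -/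
def tt (src tgt : E → I) (y : I ⊕ E → ZMod 2) (x : I) : ZMod 2 :=
  y (Sum.inl x) + ∑ e ∈ univ.filter (fun e => x = src e ∨ x = tgt e), y (Sum.inr e)

/-- `B e` in terms of `y`. -/
def BB (src tgt : E → I) (y : I ⊕ E → ZMod 2) (e : E) : ZMod 2 :=
  tt src tgt y (src e) * tt src tgt y (tgt e) + y (Sum.inr e)

/-- The permutation. -/
def PP (src tgt : E → I) (out : I → Finset E) (q : ℕ) (y : I ⊕ E → ZMod 2) : I ⊕ E → ZMod 2
  | Sum.inl i => tt src tgt y i + esym (out i) q (BB src tgt y)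
  | Sum.inr e => BB src tgt y e

theorem PP_injective (src tgt : E → I) (out : I → Finset E) (q : ℕ) :
    Function.Injective (PP src tgt out q) := by
  intro y y' h
  have hB : BB src tgt y = BB src tgt y' := by
    funext e
    exact congrFun h (Sum.inr e)
  have ht : ∀ i, tt src tgt y i = tt src tgt y' i := by
    intro i
    have h1 := congrFun h (Sum.inl i)
    simp only [PP] at h1
    rw [hB] at h1
    exact add_right_cancel h1
  have hb : ∀ e, y (Sum.inr e) = y' (Sum.inr e) := by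
    intro e
    have h1 := congrFun hB e
    simp only [BB] at h1
    rw [ht, ht] at h1
    exact add_left_cancel h1
  have ha : ∀ i, y (Sum.inl i) = y' (Sum.inl i) := by
    intro i
    have h1 := ht i
    simp only [tt] at h1
    rw [Finset.sum_congr rfl (fun e _ => hb e)] at h1
    exact add_right_cancel h1
  funext c
  rcases c with i | e
  · exact ha i
  · exact hb e

theorem PP_bijective (src tgt : E → I) (out : I → Finset E) (q : ℕ) :
    Function.Bijective (PP src tgt out q) :=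
  Finite.injective_iff_bijective.1 (PP_injective src tgt out q)

/-- The vector `y` attached to a point `z`. -/
def yy (τ : Coord I E → Finset I) (z : Coord I E → ZMod 2) (c : I ⊕ E) : ZMod 2 :=
  z (Sum.inl c) + ∑ p, DD τ c p * z (Sum.inr p)

theorem yy_inr (τ : Coord I E → Finset I) (z : Coord I E → ZMod 2) (e : E) :
    yy τ z (Sum.inr e) = z (Sum.inl (Sum.inr e)) := by
  simp [yy, DD]

theorem lin_TT (τ : Coord I E → Finset I) (src tgt : E → I)
    (h1 : ∀ i, τ (Sum.inl (Sum.inl i)) = {i})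
    (h2 : ∀ e, τ (Sum.inl (Sum.inr e)) = {src e, tgt e})
    (x : I) (z : Coord I E → ZMod 2) : lin (TT τ x) z = tt src tgt (yy τ z) x := by
  unfold lin TT tt
  simp only [yy_inr]
  rw [Finset.sum_filter, Fintype.sum_sum_type, Fintype.sum_sum_type, Fintype.sum_sum_type]
  simp only [h1, h2, Finset.mem_singleton, Finset.mem_insert]
  rw [Finset.sum_ite_eq Finset.univ x (fun i => z (Sum.inl (Sum.inl i)))]
  simp only [Finset.mem_univ, if_true]
  rw [Finset.sum_filter]
  unfold yy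
  rw [Fintype.sum_sum_type]
  simp only [DD, ite_mul, one_mul, zero_mul]
  ring

/-- The function attached to an edge. -/
def Fe (τ : Coord I E → Finset I) (src tgt : E → I) (q : ℕ) (e : E) (z : Coord I E → ZMod 2) :
    ZMod 2 :=
  (lin ((TT τ (src e)).erase (Sum.inl (Sum.inr e))) z *
      lin ((TT τ (tgt e)).erase (Sum.inl (Sum.inr e))) z +
    lin {Sum.inl (Sum.inr e)} z * lin ((TT τ (src e)).erase (Sum.inl (Sum.inr e))) z +
    lin {Sum.inl (Sum.inr e)} z * lin ((TT τ (tgt e)).erase (Sum.inl (Sum.inr e))) z) *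
  esym (τ (Sum.inr (Sum.inr e))) q (fun r => lin ((TT τ r).erase (Sum.inr (Sum.inr e))) z)

/-- The function attached to a vertex. -/
def Fi (τ : Coord I E → Finset I) (tgt : E → I) (out : I → Finset E) (r0 : I → I)
    (S S' : I → Finset I) (q : ℕ) (i : I) (z : Coord I E → ZMod 2) : ZMod 2 :=
  lin (TT τ i) z * lin ((TT τ (r0 i)).erase (Sum.inr (Sum.inl i))) z *
    esym (out i) q (fun e => lin (((TT τ (tgt e)).erase (Sum.inl (Sum.inr e))).erase
      (Sum.inr (Sum.inl i))) z) +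
  lin (TT τ i) z * lin ((TT τ (r0 i)).erase (Sum.inr (Sum.inl i))) z *
    (lin {Sum.inr (Sum.inl i)} z * esym (out i) (q - 1)
      (fun e => lin (((TT τ (tgt e)).erase (Sum.inl (Sum.inr e))).erase
      (Sum.inr (Sum.inl i))) z)) +
  lin (TT τ i) z * lin (TT τ (r0 i)) z *
    esym (S i) q (fun r => lin ((TT τ r).erase (Sum.inr (Sum.inl i))) z) +
  esym (out i) q (fun e => lin {Sum.inl (Sum.inr e)} z) *
    esym (S' i) 2 (fun r => lin ((TT τ r).erase (Sum.inr (Sum.inl i))) z) +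
  lin (TT τ i \ (out i).image (fun e => Sum.inl (Sum.inr e))) z *
    esym (out i) q (fun e => lin {Sum.inl (Sum.inr e)} z) *
    lin ((TT τ (r0 i)).erase (Sum.inr (Sum.inl i))) z +
  esym (out i) (q + 1) (fun e => lin {Sum.inl (Sum.inr e)} z) *
    lin ((TT τ (r0 i)).erase (Sum.inr (Sum.inl i))) z

omit [Fintype I] [DecidableEq I] [Fintype E] [DecidableEq E] in
theorem lin_erase {κ : Type*} [DecidableEq κ] (A : Finset κ) (c : κ) (hc : c ∈ A)
    (z : κ → ZMod 2) : lin (A.erase c) z = lin A z + z c := by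
  unfold lin
  have h := Finset.add_sum_erase A z hc
  have h2 := zmod2_add_self (z c)
  linear_combination h - h2

omit [Fintype I] [DecidableEq I] [Fintype E] [DecidableEq E] in
theorem lin_singleton {κ : Type*} (c : κ) (z : κ → ZMod 2) : lin {c} z = z c := by
  simp [lin]

theorem Fe_eq (τ : Coord I E → Finset I) (src tgt : E → I) (a : ℕ)
    (h1 : ∀ i, τ (Sum.inl (Sum.inl i)) = {i})
    (h2 : ∀ e, τ (Sum.inl (Sum.inr e)) = {src e, tgt e})
    (hR : ∀ e, (τ (Sum.inr (Sum.inr e))).card = 2 ^ (a + 2) - 1)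
    (e : E) (z : Coord I E → ZMod 2) :
    Fe τ src tgt (2 ^ (a + 1)) e z = z (Sum.inr (Sum.inr e)) * BB src tgt (yy τ z) e +
      BB src tgt (yy τ z) e * esym (τ (Sum.inr (Sum.inr e))) (2 ^ (a + 1))
        (tt src tgt (yy τ z)) := by
  unfold Fe
  have hs : (Sum.inl (Sum.inr e) : Coord I E) ∈ TT τ (src e) := by simp [mem_TT, h2]
  have ht : (Sum.inl (Sum.inr e) : Coord I E) ∈ TT τ (tgt e) := by simp [mem_TT, h2]
  have e1 : esym (τ (Sum.inr (Sum.inr e))) (2 ^ (a + 1))
      (fun r => lin ((TT τ r).erase (Sum.inr (Sum.inr e))) z) =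
      esym (τ (Sum.inr (Sum.inr e))) (2 ^ (a + 1)) (tt src tgt (yy τ z)) +
        z (Sum.inr (Sum.inr e)) := by
    rw [← esym_selfdual _ (a + 1) (by rw [hR e])]
    refine esym_congr _ _ _ _ (fun r hr => ?_)
    rw [lin_erase _ _ (mem_TT.2 hr), lin_TT τ src tgt h1 h2]
  rw [e1, lin_erase _ _ hs, lin_erase _ _ ht, lin_singleton, lin_TT τ src tgt h1 h2,
    lin_TT τ src tgt h1 h2]
  unfold BB
  rw [yy_inr]
  generalize tt src tgt (yy τ z) (src e) = u
  generalize tt src tgt (yy τ z) (tgt e) = v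
  generalize z (Sum.inl (Sum.inr e)) = b
  generalize z (Sum.inr (Sum.inr e)) = p
  generalize esym (τ (Sum.inr (Sum.inr e))) (2 ^ (a + 1)) (tt src tgt (yy τ z)) = s
  revert u v b p s
  decide

theorem Fi_eq (τ : Coord I E → Finset I) (src tgt : E → I) (out : I → Finset E) (r0 : I → I)
    (S S' : I → Finset I) (a : ℕ)
    (h1 : ∀ i, τ (Sum.inl (Sum.inl i)) = {i})
    (h2 : ∀ e, τ (Sum.inl (Sum.inr e)) = {src e, tgt e})
    (hsrc : ∀ i, ∀ e ∈ out i, src e = i)
    (hst : ∀ e, src e ≠ tgt e)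
    (hout : ∀ i, (out i).card = 2 ^ (a + 2) - 2)
    (htgt : ∀ i, ∀ e ∈ out i, tgt e ∈ τ (Sum.inr (Sum.inl i)))
    (hr0 : ∀ i, r0 i ∈ τ (Sum.inr (Sum.inl i)))
    (hS : ∀ i, S i ⊆ τ (Sum.inr (Sum.inl i))) (hS' : ∀ i, S' i ⊆ τ (Sum.inr (Sum.inl i)))
    (hcS : ∀ i, (S i).card = 2 ^ (a + 2) - 1) (hcS' : ∀ i, (S' i).card = 3)
    (i : I) (z : Coord I E → ZMod 2) :
    Fi τ tgt out r0 S S' (2 ^ (a + 1)) i z =
      z (Sum.inr (Sum.inl i)) * (tt src tgt (yy τ z) i +
        esym (out i) (2 ^ (a + 1)) (BB src tgt (yy τ z))) +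
      (tt src tgt (yy τ z) i * tt src tgt (yy τ z) (r0 i) *
          esym (out i) (2 ^ (a + 1)) (fun e => tt src tgt (yy τ z) (tgt e) + yy τ z (Sum.inr e)) +
        tt src tgt (yy τ z) i * tt src tgt (yy τ z) (r0 i) *
          esym (S i) (2 ^ (a + 1)) (tt src tgt (yy τ z)) +
        esym (out i) (2 ^ (a + 1)) (fun e => yy τ z (Sum.inr e)) *
          esym (S' i) 2 (tt src tgt (yy τ z)) +
        (tt src tgt (yy τ z) i * esym (out i) (2 ^ (a + 1)) (fun e => yy τ z (Sum.inr e))) *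
          tt src tgt (yy τ z) (r0 i)) := by
  unfold Fi
  have hpow : Even (2 ^ (a + 1)) := by rw [pow_succ]; exact even_two.mul_left _
  -- rewrite the pieces
  have e1 : (lin ((TT τ (r0 i)).erase (Sum.inr (Sum.inl i))) z) =
      tt src tgt (yy τ z) (r0 i) + z (Sum.inr (Sum.inl i)) := by
    rw [lin_erase _ _ (mem_TT.2 (hr0 i)), lin_TT τ src tgt h1 h2]
  have e2 : ∀ r, esym (out i) r (fun e => lin (((TT τ (tgt e)).erase
      (Sum.inl (Sum.inr e))).erase (Sum.inr (Sum.inl i))) z) =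
      esym (out i) r (fun e => (tt src tgt (yy τ z) (tgt e) + yy τ z (Sum.inr e)) +
        z (Sum.inr (Sum.inl i))) := by
    intro r
    refine esym_congr _ _ _ _ (fun e he => ?_)
    have hm1 : (Sum.inr (Sum.inl i) : Coord I E) ∈
        (TT τ (tgt e)).erase (Sum.inl (Sum.inr e)) :=
      Finset.mem_erase.2 ⟨by simp, mem_TT.2 (htgt i e he)⟩
    have hm2 : (Sum.inl (Sum.inr e) : Coord I E) ∈ TT τ (tgt e) := by simp [mem_TT, h2]
    rw [lin_erase _ _ hm1, lin_erase _ _ hm2, lin_TT τ src tgt h1 h2, yy_inr]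
  have e3 : esym (S i) (2 ^ (a + 1)) (fun r => lin ((TT τ r).erase (Sum.inr (Sum.inl i))) z) =
      esym (S i) (2 ^ (a + 1)) (tt src tgt (yy τ z)) + z (Sum.inr (Sum.inl i)) := by
    rw [← esym_selfdual _ (a + 1) (by rw [hcS i])]
    refine esym_congr _ _ _ _ (fun r hr => ?_)
    rw [lin_erase _ _ (mem_TT.2 (hS i hr)), lin_TT τ src tgt h1 h2]
  have e4 : esym (S' i) 2 (fun r => lin ((TT τ r).erase (Sum.inr (Sum.inl i))) z) =
      esym (S' i) 2 (tt src tgt (yy τ z)) + z (Sum.inr (Sum.inl i)) := by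
    have h := esym_selfdual (S' i) 1 (by rw [hcS' i]; norm_num) (tt src tgt (yy τ z))
      (z (Sum.inr (Sum.inl i)))
    rw [pow_one] at h
    rw [← h]
    refine esym_congr _ _ _ _ (fun r hr => ?_)
    rw [lin_erase _ _ (mem_TT.2 (hS' i hr)), lin_TT τ src tgt h1 h2]
  have e5 : ∀ r, esym (out i) r (fun e => lin {Sum.inl (Sum.inr e)} z) =
      esym (out i) r (fun e => yy τ z (Sum.inr e)) := by
    intro r
    refine esym_congr _ _ _ _ (fun e _ => ?_)
    rw [lin_singleton, yy_inr]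
  have e6 : lin (TT τ i \ (out i).image (fun e => (Sum.inl (Sum.inr e) : Coord I E))) z =
      tt src tgt (yy τ z) i + ∑ e ∈ out i, yy τ z (Sum.inr e) := by
    have hsub : (out i).image (fun e => (Sum.inl (Sum.inr e) : Coord I E)) ⊆ TT τ i := by
      intro c hc
      obtain ⟨e, he, rfl⟩ := Finset.mem_image.1 hc
      rw [mem_TT, h2, hsrc i e he]
      simp
    have h := Finset.sum_sdiff (f := z) hsub
    rw [Finset.sum_image (by intro x _ y _ hxy; simpa using hxy)] at h
    have h' : ∑ e ∈ out i, z (Sum.inl (Sum.inr e)) = ∑ e ∈ out i, yy τ z (Sum.inr e) :=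
      Finset.sum_congr rfl (fun e _ => by rw [yy_inr])
    have h3 := lin_TT τ src tgt h1 h2 i z
    unfold lin at h3 ⊢
    rw [← h3, ← h']
    have h4 := zmod2_add_self (∑ e ∈ out i, z (Sum.inl (Sum.inr e)))
    linear_combination h - h4
  have e7 := esym_shift (out i) a (hout i)
    (fun e => tt src tgt (yy τ z) (tgt e) + yy τ z (Sum.inr e)) (z (Sum.inr (Sum.inl i)))
  have e8 := esym_mul_sum (out i) (2 ^ (a + 1)) hpow (fun e => yy τ z (Sum.inr e))
  have e9 : esym (out i) (2 ^ (a + 1)) (BB src tgt (yy τ z)) =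
      tt src tgt (yy τ z) i * esym (out i) (2 ^ (a + 1))
        (fun e => tt src tgt (yy τ z) (tgt e) + yy τ z (Sum.inr e)) +
      (1 + tt src tgt (yy τ z) i) * esym (out i) (2 ^ (a + 1)) (fun e => yy τ z (Sum.inr e)) := by
    rw [← esym_mux]
    refine esym_congr _ _ _ _ (fun e he => ?_)
    unfold BB
    rw [hsrc i e he]
  rw [e1, e2, e2, e3, e4, e5, e5, e6, e9, lin_singleton, lin_TT τ src tgt h1 h2,
    lin_TT τ src tgt h1 h2, ← e8]
  generalize tt src tgt (yy τ z) i = t at *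
  generalize tt src tgt (yy τ z) (r0 i) = x at *
  generalize z (Sum.inr (Sum.inl i)) = p at *
  generalize esym (out i) (2 ^ (a + 1)) (fun e => yy τ z (Sum.inr e)) = b at *
  generalize esym (S i) (2 ^ (a + 1)) (tt src tgt (yy τ z)) = s at *
  generalize esym (S' i) 2 (tt src tgt (yy τ z)) = s' at *
  generalize ∑ e ∈ out i, yy τ z (Sum.inr e) = σ at *
  generalize esym (out i) (2 ^ (a + 1)) (fun e => tt src tgt (yy τ z) (tgt e) + yy τ z (Sum.inr e))
    = g at *
  generalize esym (out i) (2 ^ (a + 1))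
    (fun e => tt src tgt (yy τ z) (tgt e) + yy τ z (Sum.inr e) + p) = g1 at *
  generalize esym (out i) (2 ^ (a + 1) - 1)
    (fun e => tt src tgt (yy τ z) (tgt e) + yy τ z (Sum.inr e) + p) = g2 at *
  have e10 : g1 = g + p + p * g2 := by
    have := zmod2_add_self (p * g2)
    linear_combination e7 - this
  rw [e10]
  clear e1 e2 e3 e4 e5 e6 e7 e8 e9 e10 g1
  revert t x p b s s' σ g g2
  decide

theorem lin_hom {κ : Type*} [DecidableEq κ] (A : Finset κ) : IsHomOn A 1 (lin A) :=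
  IsHomOn.linear A

theorem IsHomOn.top {κ : Type*} [Fintype κ] [DecidableEq κ] {A : Finset κ} {k : ℕ}
    {F : (κ → ZMod 2) → ZMod 2} (h : IsHomOn A k F) : IsHomOn univ k F :=
  h.mono (Finset.subset_univ _)

/-- Homogeneity of the edge functions. -/
theorem Fe_hom (τ : Coord I E → Finset I) (src tgt : E → I) (q : ℕ)
    (h2 : ∀ e, τ (Sum.inl (Sum.inr e)) = {src e, tgt e})
    (hst : ∀ e, src e ≠ tgt e)
    (hlin : ∀ c c' : Coord I E, ∀ x ∈ τ c, ∀ y ∈ τ c, x ∈ τ c' → y ∈ τ c' → x ≠ y → c = c')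
    (hu1 : ∀ e, ∀ r ∈ τ (Sum.inr (Sum.inr e)), ∀ c, r ∈ τ c → src e ∉ τ c ∧ tgt e ∉ τ c)
    (e : E) : IsHomOn univ (q + 2) (Fe τ src tgt q e) := by
  unfold Fe
  set ae : Coord I E := Sum.inl (Sum.inr e) with hae
  set pe : Coord I E := Sum.inr (Sum.inr e) with hpe
  set A := (TT τ (src e)).erase ae with hA
  set B := (TT τ (tgt e)).erase ae with hB
  have hsA : src e ∈ τ ae := by rw [hae, h2]; simp
  have htA : tgt e ∈ τ ae := by rw [hae, h2]; simp
  have dAB : Disjoint A B := by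
    rw [Finset.disjoint_left]
    intro c hc hc'
    rw [hA, Finset.mem_erase, mem_TT] at hc
    rw [hB, Finset.mem_erase, mem_TT] at hc'
    exact hc.1 (hlin c ae (src e) hc.2 (tgt e) hc'.2 hsA htA (hst e))
  have daA : Disjoint {ae} A := by simp [hA]
  have daB : Disjoint {ae} B := by simp [hB]
  let R : I → Finset (Coord I E) := fun r => (TT τ r).erase pe
  have hRR : ∀ r ∈ τ pe, ∀ r' ∈ τ pe, r ≠ r' → Disjoint (R r) (R r') := by
    intro r hr r' hr' hne
    rw [Finset.disjoint_left]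
    intro c hc hc'
    simp only [R, Finset.mem_erase, mem_TT] at hc hc'
    exact hc.1 (hlin c pe r hc.2 r' hc'.2 hr hr' hne)
  have hE : IsHomOn ((τ pe).biUnion R) q (fun x => esym (τ pe) q (fun r => lin (R r) x)) :=
    esym_hom (τ pe) q R hRR
  have dTs : Disjoint (TT τ (src e)) ((τ pe).biUnion R) := by
    rw [Finset.disjoint_left]
    intro c hc hc'
    rw [Finset.mem_biUnion] at hc'
    obtain ⟨r, hr, hc'⟩ := hc'
    simp only [R, Finset.mem_erase, mem_TT] at hc'
    exact (hu1 e r hr c hc'.2).1 (mem_TT.1 hc)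
  have dTt : Disjoint (TT τ (tgt e)) ((τ pe).biUnion R) := by
    rw [Finset.disjoint_left]
    intro c hc hc'
    rw [Finset.mem_biUnion] at hc'
    obtain ⟨r, hr, hc'⟩ := hc'
    simp only [R, Finset.mem_erase, mem_TT] at hc'
    exact (hu1 e r hr c hc'.2).2 (mem_TT.1 hc)
  have dA : Disjoint A ((τ pe).biUnion R) := Finset.disjoint_of_subset_left
    (Finset.erase_subset _ _) dTs
  have dB : Disjoint B ((τ pe).biUnion R) := Finset.disjoint_of_subset_left
    (Finset.erase_subset _ _) dTt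
  have da : Disjoint {ae} ((τ pe).biUnion R) := Finset.disjoint_of_subset_left
    (by rw [Finset.singleton_subset_iff, mem_TT]; exact hsA) dTs
  have q1 := ((lin_hom A).mul (lin_hom B) dAB).mul hE (by
    rw [Finset.disjoint_union_left]; exact ⟨dA, dB⟩)
  have q2 := ((lin_hom {ae}).mul (lin_hom A) daA).mul hE (by
    rw [Finset.disjoint_union_left]; exact ⟨da, dA⟩)
  have q3 := ((lin_hom {ae}).mul (lin_hom B) daB).mul hE (by
    rw [Finset.disjoint_union_left]; exact ⟨da, dB⟩)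
  have hq : 1 + 1 + q = q + 2 := by ring
  rw [hq] at q1 q2 q3
  refine ((q1.top.add q2.top).add q3.top).congr (fun x => ?_)
  simp only [R]
  ring

/-- Homogeneity of the vertex functions. -/
theorem Fi_hom (τ : Coord I E → Finset I) (src tgt : E → I) (out : I → Finset E) (r0 : I → I)
    (S S' : I → Finset I) (q : ℕ) (hq1 : 1 ≤ q)
    (h1 : ∀ i, τ (Sum.inl (Sum.inl i)) = {i})
    (h2 : ∀ e, τ (Sum.inl (Sum.inr e)) = {src e, tgt e})
    (hsrc : ∀ i, ∀ e ∈ out i, src e = i)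
    (hst : ∀ e, src e ≠ tgt e)
    (hinj : ∀ i, ∀ e ∈ out i, ∀ e' ∈ out i, tgt e = tgt e' → e = e')
    (htgt : ∀ i, ∀ e ∈ out i, tgt e ∈ τ (Sum.inr (Sum.inl i)))
    (hr0 : ∀ i, r0 i ∈ τ (Sum.inr (Sum.inl i)))
    (hr0t : ∀ i, ∀ e ∈ out i, tgt e ≠ r0 i)
    (hr0S : ∀ i, r0 i ∉ S i)
    (hS : ∀ i, S i ⊆ τ (Sum.inr (Sum.inl i))) (hS' : ∀ i, S' i ⊆ τ (Sum.inr (Sum.inl i)))
    (hlin : ∀ c c' : Coord I E, ∀ x ∈ τ c, ∀ y ∈ τ c, x ∈ τ c' → y ∈ τ c' → x ≠ y → c = c')
    (hu0 : ∀ i, ∀ c, r0 i ∈ τ c → i ∉ τ c)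
    (huS : ∀ i, ∀ r ∈ S i, ∀ c, r ∈ τ c → i ∉ τ c)
    (huS' : ∀ i, ∀ r ∈ S' i, ∀ c, r ∈ τ c → i ∉ τ c)
    (i : I) : IsHomOn univ (q + 2) (Fi τ tgt out r0 S S' q i) := by
  unfold Fi
  set pi : Coord I E := Sum.inr (Sum.inl i) with hpi
  set X := (TT τ (r0 i)).erase pi with hX
  let A : E → Finset (Coord I E) := fun e => ((TT τ (tgt e)).erase (Sum.inl (Sum.inr e))).erase pi
  let R : I → Finset (Coord I E) := fun r => (TT τ r).erase pi
  let a : E → Finset (Coord I E) := fun e => {Sum.inl (Sum.inr e)}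
  have hmA : ∀ e c, c ∈ A e ↔ c ≠ pi ∧ c ≠ Sum.inl (Sum.inr e) ∧ tgt e ∈ τ c := by
    intro e c
    simp [A, Finset.mem_erase, mem_TT]
  have hmR : ∀ r c, c ∈ R r ↔ c ≠ pi ∧ r ∈ τ c := by
    intro r c
    simp [R, Finset.mem_erase, mem_TT]
  have hmX : ∀ c, c ∈ X ↔ c ≠ pi ∧ r0 i ∈ τ c := by
    intro c
    simp [hX, Finset.mem_erase, mem_TT]
  have hipi : i ∉ τ pi := hu0 i pi (hr0 i)
  have hAA : ∀ e ∈ out i, ∀ e' ∈ out i, e ≠ e' → Disjoint (A e) (A e') := by
    intro e he e' he' hne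
    rw [Finset.disjoint_left]
    intro c hc hc'
    rw [hmA] at hc hc'
    exact hc.1 (hlin c pi (tgt e) hc.2.2 (tgt e') hc'.2.2 (htgt i e he) (htgt i e' he')
      (fun h => hne (hinj i e he e' he' h)))
  have haa : ∀ e ∈ out i, ∀ e' ∈ out i, e ≠ e' → Disjoint (a e) (a e') := by
    intro e he e' he' hne
    simp only [a, Finset.disjoint_singleton]
    intro h
    exact hne (by simpa using h)
  have hRRS : ∀ r ∈ S i, ∀ r' ∈ S i, r ≠ r' → Disjoint (R r) (R r') := by
    intro r hr r' hr' hne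
    rw [Finset.disjoint_left]
    intro c hc hc'
    rw [hmR] at hc hc'
    exact hc.1 (hlin c pi r hc.2 r' hc'.2 (hS i hr) (hS i hr') hne)
  have hRRS' : ∀ r ∈ S' i, ∀ r' ∈ S' i, r ≠ r' → Disjoint (R r) (R r') := by
    intro r hr r' hr' hne
    rw [Finset.disjoint_left]
    intro c hc hc'
    rw [hmR] at hc hc'
    exact hc.1 (hlin c pi r hc.2 r' hc'.2 (hS' i hr) (hS' i hr') hne)
  have EA : ∀ r, IsHomOn ((out i).biUnion A) r (fun x => esym (out i) r (fun e => lin (A e) x)) :=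
    fun r => esym_hom (out i) r A hAA
  have Ea : ∀ r, IsHomOn ((out i).biUnion a) r (fun x => esym (out i) r (fun e => lin (a e) x)) :=
    fun r => esym_hom (out i) r a haa
  have ES : IsHomOn ((S i).biUnion R) q (fun x => esym (S i) q (fun r => lin (R r) x)) :=
    esym_hom (S i) q R hRRS
  have ES' : IsHomOn ((S' i).biUnion R) 2 (fun x => esym (S' i) 2 (fun r => lin (R r) x)) :=
    esym_hom (S' i) 2 R hRRS'
  -- disjointness relations
  have dTX : Disjoint (TT τ i) X := by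
    rw [Finset.disjoint_left]
    intro c hc hc'
    exact hu0 i c ((hmX c).1 hc').2 (mem_TT.1 hc)
  have dTT0 : Disjoint (TT τ i) (TT τ (r0 i)) := by
    rw [Finset.disjoint_left]
    intro c hc hc'
    exact hu0 i c (mem_TT.1 hc') (mem_TT.1 hc)
  have dTA : Disjoint (TT τ i) ((out i).biUnion A) := by
    rw [Finset.disjoint_left]
    intro c hc hc'
    rw [Finset.mem_biUnion] at hc'
    obtain ⟨e, he, hc'⟩ := hc'
    rw [hmA] at hc'
    refine hc'.2.1 (hlin c _ i (mem_TT.1 hc) (tgt e) hc'.2.2 ?_ ?_ ?_)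
    · rw [h2, hsrc i e he]; simp
    · rw [h2]; simp
    · rw [← hsrc i e he]; exact hst e
  have dXA : Disjoint X ((out i).biUnion A) := by
    rw [Finset.disjoint_left]
    intro c hc hc'
    rw [Finset.mem_biUnion] at hc'
    obtain ⟨e, he, hc'⟩ := hc'
    rw [hmA] at hc'
    rw [hmX] at hc
    exact hc.1 (hlin c pi (r0 i) hc.2 (tgt e) hc'.2.2 (hr0 i) (htgt i e he)
      (fun h => hr0t i e he h.symm))
  have dpT : Disjoint {pi} (TT τ i) := by
    rw [Finset.disjoint_singleton_left, mem_TT]; exact hipi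
  have dpX : Disjoint {pi} X := by
    rw [Finset.disjoint_singleton_left, hmX]; tauto
  have dpA : Disjoint {pi} ((out i).biUnion A) := by
    rw [Finset.disjoint_singleton_left, Finset.mem_biUnion]
    rintro ⟨e, he, hc⟩
    rw [hmA] at hc
    exact hc.1 rfl
  have dTS : Disjoint (TT τ i) ((S i).biUnion R) := by
    rw [Finset.disjoint_left]
    intro c hc hc'
    rw [Finset.mem_biUnion] at hc'
    obtain ⟨r, hr, hc'⟩ := hc'
    rw [hmR] at hc'
    exact huS i r hr c hc'.2 (mem_TT.1 hc)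
  have d0S : Disjoint (TT τ (r0 i)) ((S i).biUnion R) := by
    rw [Finset.disjoint_left]
    intro c hc hc'
    rw [Finset.mem_biUnion] at hc'
    obtain ⟨r, hr, hc'⟩ := hc'
    rw [hmR] at hc'
    exact hc'.1 (hlin c pi (r0 i) (mem_TT.1 hc) r hc'.2 (hr0 i) (hS i hr)
      (fun h => hr0S i (h ▸ hr)))
  have hae : ∀ e ∈ out i, i ∈ τ (Sum.inl (Sum.inr e)) := by
    intro e he
    rw [h2, hsrc i e he]; simp
  have daS' : Disjoint ((out i).biUnion a) ((S' i).biUnion R) := by
    rw [Finset.disjoint_left]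
    intro c hc hc'
    rw [Finset.mem_biUnion] at hc hc'
    obtain ⟨e, he, hc⟩ := hc
    obtain ⟨r, hr, hc'⟩ := hc'
    rw [hmR] at hc'
    simp only [a, Finset.mem_singleton] at hc
    subst hc
    exact huS' i r hr _ hc'.2 (hae e he)
  have daX : Disjoint ((out i).biUnion a) X := by
    rw [Finset.disjoint_left]
    intro c hc hc'
    rw [Finset.mem_biUnion] at hc
    obtain ⟨e, he, hc⟩ := hc
    rw [hmX] at hc'
    simp only [a, Finset.mem_singleton] at hc
    subst hc
    exact hu0 i _ hc'.2 (hae e he)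
  set T' := TT τ i \ (out i).image (fun e => (Sum.inl (Sum.inr e) : Coord I E)) with hT'
  have dT'a : Disjoint T' ((out i).biUnion a) := by
    rw [Finset.disjoint_left]
    intro c hc hc'
    rw [Finset.mem_biUnion] at hc'
    obtain ⟨e, he, hc'⟩ := hc'
    simp only [a, Finset.mem_singleton] at hc'
    rw [hT', Finset.mem_sdiff] at hc
    exact hc.2 (Finset.mem_image.2 ⟨e, he, hc'.symm⟩)
  have dT'X : Disjoint T' X := Finset.disjoint_of_subset_left Finset.sdiff_subset dTX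
  -- the six terms
  have q1 := ((lin_hom (TT τ i)).mul (lin_hom X) dTX).mul (EA q) (by
    rw [Finset.disjoint_union_left]; exact ⟨dTA, dXA⟩)
  have q2 := ((lin_hom (TT τ i)).mul (lin_hom X) dTX).mul
    ((lin_hom {pi}).mul (EA (q - 1)) dpA) (by
    rw [Finset.disjoint_union_left, Finset.disjoint_union_right, Finset.disjoint_union_right]
    exact ⟨⟨dpT.symm, dTA⟩, ⟨dpX.symm, dXA⟩⟩)
  have q3 := ((lin_hom (TT τ i)).mul (lin_hom (TT τ (r0 i))) dTT0).mul ES (by
    rw [Finset.disjoint_union_left]; exact ⟨dTS, d0S⟩)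
  have q4 := (Ea q).mul ES' daS'
  have q5 := ((lin_hom T').mul (Ea q) dT'a).mul (lin_hom X) (by
    rw [Finset.disjoint_union_left]; exact ⟨dT'X, daX⟩)
  have q6 := (Ea (q + 1)).mul (lin_hom X) daX
  have n1 : 1 + 1 + q = q + 2 := by ring
  have n2 : 1 + 1 + (1 + (q - 1)) = q + 2 := by omega
  have n5 : 1 + q + 1 = q + 2 := by ring
  rw [n1] at q1 q3
  rw [n2] at q2
  rw [n5] at q5
  exact (((((q1.top.add q2.top).add q3.top).add q4.top).add q5.top).add q6.top)

end feistel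

end Pool.Agent.P47443c
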