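import Mathlib
import Pool.Agent.Lib.P47443c.TwoDesign

set_option autoImplicit false
set_option linter.unusedSectionVars false
set_option linter.unusedVariables false

namespace Pool.Agent.P47443c

open Finset

/-- The statement of the existence of a homogeneous bent function. -/
def HomBent (n k : ℕ) : Prop :=
  ∃ S : Finset (Finset (Fin n)), (∀ s ∈ S, s.card = k) ∧
        ∀ a : Fin n → ZMod 2,
          (∑ x : Fin n → ZMod 2,
              (-1 : ℤ) ^ (ZMod.val ((∑ s ∈ S, ∏ i ∈ s, x i) + ∑ i : Fin n, a i * x i))) ^ 2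
            = 2 ^ n

theorem exists_of_feistel {I E : Type*} [Fintype I] [DecidableEq I] [Fintype E] [DecidableEq E]
    (n a : ℕ) (hn : n = 2 * (Fintype.card I + Fintype.card E))
    (τ : Coord I E → Finset I) (src tgt : E → I) (out : I → Finset E) (r0 : I → I)
    (S S' : I → Finset I)
    (h1 : ∀ i, τ (Sum.inl (Sum.inl i)) = {i})
    (h2 : ∀ e, τ (Sum.inl (Sum.inr e)) = {src e, tgt e})
    (hR : ∀ e, (τ (Sum.inr (Sum.inr e))).card = 2 ^ (a + 2) - 1)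
    (hsrc : ∀ i, ∀ e ∈ out i, src e = i)
    (hst : ∀ e, src e ≠ tgt e)
    (hout : ∀ i, (out i).card = 2 ^ (a + 2) - 2)
    (hinj : ∀ i, ∀ e ∈ out i, ∀ e' ∈ out i, tgt e = tgt e' → e = e')
    (htgt : ∀ i, ∀ e ∈ out i, tgt e ∈ τ (Sum.inr (Sum.inl i)))
    (hr0 : ∀ i, r0 i ∈ τ (Sum.inr (Sum.inl i)))
    (hr0t : ∀ i, ∀ e ∈ out i, tgt e ≠ r0 i)
    (hr0S : ∀ i, r0 i ∉ S i)
    (hS : ∀ i, S i ⊆ τ (Sum.inr (Sum.inl i))) (hS' : ∀ i, S' i ⊆ τ (Sum.inr (Sum.inl i)))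
    (hcS : ∀ i, (S i).card = 2 ^ (a + 2) - 1) (hcS' : ∀ i, (S' i).card = 3)
    (hlin : ∀ c c' : Coord I E, ∀ x ∈ τ c, ∀ y ∈ τ c, x ∈ τ c' → y ∈ τ c' → x ≠ y → c = c')
    (hu1 : ∀ e, ∀ r ∈ τ (Sum.inr (Sum.inr e)), ∀ c, r ∈ τ c → src e ∉ τ c ∧ tgt e ∉ τ c)
    (hu0 : ∀ i, ∀ c, r0 i ∈ τ c → i ∉ τ c)
    (huS : ∀ i, ∀ r ∈ S i, ∀ c, r ∈ τ c → i ∉ τ c)
    (huS' : ∀ i, ∀ r ∈ S' i, ∀ c, r ∈ τ c → i ∉ τ c) :
    HomBent n (2 ^ (a + 1) + 2) := by
  have hpos : 1 ≤ 2 ^ (a + 1) := Nat.one_le_two_pow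
  let F : (I ⊕ E → ZMod 2) → (I ⊕ E → ZMod 2) → ZMod 2 := fun u p =>
    ∑ i, Fi τ tgt out r0 S S' (2 ^ (a + 1)) i (Sum.elim u p) +
      ∑ e, Fe τ src tgt (2 ^ (a + 1)) e (Sum.elim u p)
  let g : (I ⊕ E → ZMod 2) → ZMod 2 := fun y =>
    ∑ i, (tt src tgt y i * tt src tgt y (r0 i) *
          esym (out i) (2 ^ (a + 1)) (fun e => tt src tgt y (tgt e) + y (Sum.inr e)) +
        tt src tgt y i * tt src tgt y (r0 i) *
          esym (S i) (2 ^ (a + 1)) (tt src tgt y) +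
        esym (out i) (2 ^ (a + 1)) (fun e => y (Sum.inr e)) *
          esym (S' i) 2 (tt src tgt y) +
        (tt src tgt y i * esym (out i) (2 ^ (a + 1)) (fun e => y (Sum.inr e))) *
          tt src tgt y (r0 i)) +
    ∑ e, BB src tgt y e * esym (τ (Sum.inr (Sum.inr e))) (2 ^ (a + 1)) (tt src tgt y)
  refine exists_of_mm n (2 ^ (a + 1) + 2)
    (by rw [hn, Fintype.card_sum]; ring) rfl (DD τ) (PP src tgt out (2 ^ (a + 1)))
    (PP_bijective src tgt out _) g F ?_ ⟨univ, ?_⟩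
  · intro u p
    have hy : (fun c => u c + ∑ l, DD τ c l * p l) = yy τ (Sum.elim u p) := by
      funext c; rfl
    rw [hy]
    simp only [F, g]
    rw [Fintype.sum_sum_type]
    rw [Finset.sum_congr rfl (fun i _ => Fi_eq τ src tgt out r0 S S' a h1 h2 hsrc hst hout htgt hr0
      hS hS' hcS hcS' i (Sum.elim u p)),
      Finset.sum_congr rfl (fun e _ => Fe_eq τ src tgt a h1 h2 hR e (Sum.elim u p)),
      Finset.sum_add_distrib, Finset.sum_add_distrib (f := fun e => _ * _)]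
    simp only [PP, Sum.elim_inr]
    ring
  · have hz : ∀ x : Coord I E → ZMod 2,
        Sum.elim (fun i => x (Sum.inl i)) (fun j => x (Sum.inr j)) = x := by
      intro x
      funext c
      rcases c with c | c <;> rfl
    have k1 := IsHomOn.sum (A := univ) (k := 2 ^ (a + 1) + 2) (univ : Finset I)
      (fun i _ => Fi_hom τ src tgt out r0 S S' (2 ^ (a + 1)) hpos h1 h2 hsrc hst hinj htgt hr0
        hr0t hr0S hS hS' hlin hu0 huS huS' i)
    have k2 := IsHomOn.sum (A := univ) (k := 2 ^ (a + 1) + 2) (univ : Finset E)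
      (fun e _ => Fe_hom τ src tgt (2 ^ (a + 1)) h2 hst hlin hu1 e)
    refine (k1.add k2).congr (fun x => ?_)
    simp only [F, hz]

end Pool.Agent.P47443c
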