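import Mathlib
import Pool.Agent.Lib.P47443c.TwoMain

set_option autoImplicit false
set_option linter.unusedSectionVars false
set_option linter.unusedVariables false

namespace Pool.Agent.P47443c

open Finset

/-- Labels of the offsets. -/
inductive Off (N R : ℕ) : Type
  | zero : Off N R
  | s : Fin (N + 1) → Off N R
  | rho : Fin (N + 1) → Fin R → Off N R
  | r0 : Off N R
  | S : Fin R → Off N R
  deriving DecidableEq, Fintype

section inst

variable {M N R r : ℕ}

/-- The edges. -/
abbrev EE (M N r : ℕ) := (ZMod M × Fin N) ⊕ Fin r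

/-- Position of an edge. -/
def pos : EE M N r → ZMod M
  | Sum.inl x => x.1
  | Sum.inr j => (j.val : ZMod M)

/-- Label of an edge. -/
def lab : EE M N r → Fin (N + 1)
  | Sum.inl x => x.2.castSucc
  | Sum.inr _ => Fin.last N

theorem pos_lab_inj (hr : r ≤ M) (e e' : EE M N r) (h1 : pos e = pos e') (h2 : lab e = lab e') :
    e = e' := by
  rcases e with ⟨i, l⟩ | j <;> rcases e' with ⟨i', l'⟩ | j'
  · simp only [pos, lab] at h1 h2
    rw [h1, Fin.castSucc_injective _ h2]
  · simp only [lab] at h2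
    exact absurd h2 (Fin.castSucc_lt_last l).ne
  · simp only [lab] at h2
    exact absurd h2.symm (Fin.castSucc_lt_last l').ne
  · simp only [pos] at h1
    rw [ZMod.natCast_eq_natCast_iff] at h1
    have := Nat.ModEq.eq_of_lt_of_lt h1 (lt_of_lt_of_le j.2 hr) (lt_of_lt_of_le j'.2 hr)
    rw [Fin.ext this]

/-- Base point of a coordinate. -/
def base : Coord (ZMod M) (EE M N r) → ZMod M
  | Sum.inl (Sum.inl i) => i
  | Sum.inl (Sum.inr e) => pos e
  | Sum.inr (Sum.inl i) => i
  | Sum.inr (Sum.inr e) => pos e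

/-- Offsets of a coordinate. -/
def inJ (R : ℕ) : Coord (ZMod M) (EE M N r) → Off N R → Bool
  | Sum.inl (Sum.inl _), Off.zero => true
  | Sum.inl (Sum.inr _), Off.zero => true
  | Sum.inl (Sum.inr e), Off.s l => decide (l = lab e)
  | Sum.inr (Sum.inr e), Off.rho l _ => decide (l = lab e)
  | Sum.inr (Sum.inl _), Off.s l => decide (l.val < N)
  | Sum.inr (Sum.inl _), Off.r0 => true
  | Sum.inr (Sum.inl _), Off.S _ => true
  | _, _ => false

/-- Two distinct offsets and the base point determine the coordinate. -/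
theorem inJ_unique (hr : r ≤ M) (c c' : Coord (ZMod M) (EE M N r)) (j k : Off N R) (hjk : j ≠ k)
    (h1 : inJ R c j = true) (h2 : inJ R c k = true) (h3 : inJ R c' j = true)
    (h4 : inJ R c' k = true) (hb : base c = base c') : c = c' := by
  rcases c with (i | e) | (i | e) <;> rcases c' with (i' | e') | (i' | e') <;>
    cases j <;> cases k <;> simp_all [inJ, base]
  all_goals first
    | exact pos_lab_inj hr _ _ hb (by simp_all)
    | skip

/-- The numerical value of an offset. -/
noncomputable def gg (M N R : ℕ) (j : Off N R) : ZMod M :=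
  ((3 ^ (Fintype.equivFin (Off N R) j).val : ℕ) : ZMod M)

theorem gg_sidon (hM : 2 * 3 ^ Fintype.card (Off N R) < M) (j k j' k' : Off N R) (hjk : j ≠ k)
    (h : gg M N R j - gg M N R k = gg M N R j' - gg M N R k') : j = j' ∧ k = k' := by
  have key := three_pow_sidon_mod M (Fintype.card (Off N R)) hM
    (Fintype.equivFin (Off N R) j).val (Fintype.equivFin (Off N R) k).val
    (Fintype.equivFin (Off N R) j').val (Fintype.equivFin (Off N R) k').val
    (Fintype.equivFin (Off N R) j).isLt (Fintype.equivFin (Off N R) k).isLt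
    (Fintype.equivFin (Off N R) j').isLt (Fintype.equivFin (Off N R) k').isLt
    (by unfold gg at h; linear_combination h)
  have inj : ∀ u v : Off N R, (Fintype.equivFin (Off N R) u).val =
      (Fintype.equivFin (Off N R) v).val → u = v := fun u v huv =>
    (Fintype.equivFin (Off N R)).injective (Fin.ext huv)
  rcases key with ⟨h1, h2⟩ | ⟨h1, h2⟩
  · exact absurd (inj _ _ h1) hjk
  · exact ⟨inj _ _ h1, (inj _ _ h2).symm⟩

theorem gg_inj (hM : 2 * 3 ^ Fintype.card (Off N R) < M) (j k : Off N R)
    (h : gg M N R j = gg M N R k) : j = k := by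
  by_contra hjk
  have := gg_sidon hM j k k j hjk (by rw [h])
  exact hjk this.1

/-- The types. -/
noncomputable def tau (M N R r : ℕ) (c : Coord (ZMod M) (EE M N r)) : Finset (ZMod M) :=
  (univ.filter (fun j => inJ R c j = true)).image
    (fun j => base c + gg M N R j - gg M N R Off.zero)

theorem mem_tau {c : Coord (ZMod M) (EE M N r)} {x : ZMod M} : x ∈ tau M N R r c ↔
    ∃ j : Off N R, inJ R c j = true ∧ x = base c + gg M N R j - gg M N R Off.zero := by
  unfold tau
  simp only [Finset.mem_image, Finset.mem_filter, Finset.mem_univ, true_and]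
  constructor
  · rintro ⟨j, h1, h2⟩; exact ⟨j, h1, h2.symm⟩
  · rintro ⟨j, h1, h2⟩; exact ⟨j, h1, h2.symm⟩

/-- If `i + g j - g 0` and `i + g k - g 0` lie in `tau c` for `j ≠ k`, then `c` has offsets
`j`, `k` and base point `i`. -/
theorem mem_two (hM : 2 * 3 ^ Fintype.card (Off N R) < M) (c : Coord (ZMod M) (EE M N r))
    (i : ZMod M) (j k : Off N R) (hjk : j ≠ k)
    (h1 : i + gg M N R j - gg M N R Off.zero ∈ tau M N R r c)
    (h2 : i + gg M N R k - gg M N R Off.zero ∈ tau M N R r c) :
    inJ R c j = true ∧ inJ R c k = true ∧ base c = i := by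
  obtain ⟨j', hj', e1⟩ := mem_tau.1 h1
  obtain ⟨k', hk', e2⟩ := mem_tau.1 h2
  have h3 := gg_sidon hM j k j' k' hjk (by linear_combination e1 - e2)
  obtain ⟨rfl, rfl⟩ := h3
  exact ⟨hj', hk', by linear_combination -e1⟩

theorem tau_lin (hr : r ≤ M) (hM : 2 * 3 ^ Fintype.card (Off N R) < M)
    (c c' : Coord (ZMod M) (EE M N r)) (x : ZMod M) (hx : x ∈ tau M N R r c) (y : ZMod M)
    (hy : y ∈ tau M N R r c) (hx' : x ∈ tau M N R r c') (hy' : y ∈ tau M N R r c')
    (hxy : x ≠ y) : c = c' := by
  obtain ⟨j, hj, e1⟩ := mem_tau.1 hx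
  obtain ⟨k, hk, e2⟩ := mem_tau.1 hy
  have hjk : j ≠ k := by
    rintro rfl
    exact hxy (e1.trans e2.symm)
  rw [e1] at hx'
  rw [e2] at hy'
  obtain ⟨h1, h2, h3⟩ := mem_two hM c' (base c) j k hjk hx' hy'
  exact inJ_unique hr c c' j k hjk hj hk h1 h2 h3.symm

/-- Existence for `k = 2 ^ (a + 1) + 2`. -/
theorem homBent_inst (a M r : ℕ) (hr : r ≤ M)
    (hM : 2 * 3 ^ Fintype.card (Off (2 ^ (a + 2) - 2) (2 ^ (a + 2) - 1)) < M) :
    HomBent (2 * (M + (M * (2 ^ (a + 2) - 2) + r))) (2 ^ (a + 1) + 2) := by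
  have hne : NeZero M := ⟨by omega⟩
  have hpow : 4 ≤ 2 ^ (a + 2) := by
    rw [pow_add]
    have : 1 ≤ 2 ^ a := Nat.one_le_two_pow
    omega
  obtain ⟨N, hN⟩ : ∃ N, N = 2 ^ (a + 2) - 2 := ⟨_, rfl⟩
  obtain ⟨R, hR⟩ : ∃ R, R = 2 ^ (a + 2) - 1 := ⟨_, rfl⟩
  rw [← hN, ← hR] at hM
  rw [← hN]
  have hR3 : 3 ≤ R := by omega
  have ginj := gg_inj (N := N) (R := R) hM
  have m2 := mem_two (r := r) (N := N) (R := R) hM
  let g : Off N R → ZMod M := gg M N R
  let src : EE M N r → ZMod M := pos
  let tgt : EE M N r → ZMod M := fun e => pos e + g (Off.s (lab e)) - g Off.zero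
  let out : ZMod M → Finset (EE M N r) := fun i =>
    (univ : Finset (Fin N)).map ⟨fun l => Sum.inl (i, l), fun l l' h => by simpa using h⟩
  let r0 : ZMod M → ZMod M := fun i => i + g Off.r0 - g Off.zero
  let S : ZMod M → Finset (ZMod M) := fun i =>
    (univ : Finset (Fin R)).image (fun u => i + g (Off.S u) - g Off.zero)
  let S' : ZMod M → Finset (ZMod M) := fun i =>
    (univ : Finset (Fin 3)).image (fun u => i + g (Off.S (Fin.castLE hR3 u)) - g Off.zero)
  have hmout : ∀ i e, e ∈ out i ↔ ∃ l : Fin N, e = Sum.inl (i, l) := by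
    intro i e
    simp only [out, Finset.mem_map, Finset.mem_univ, true_and, Function.Embedding.coeFn_mk]
    constructor
    · rintro ⟨l, h⟩; exact ⟨l, h.symm⟩
    · rintro ⟨l, h⟩; exact ⟨l, h.symm⟩
  have hmS : ∀ i x, x ∈ S i → ∃ u : Fin R, x = i + g (Off.S u) - g Off.zero := by
    intro i x hx
    simp only [S, Finset.mem_image, Finset.mem_univ, true_and] at hx
    obtain ⟨u, hu⟩ := hx
    exact ⟨u, hu.symm⟩
  have hmS' : ∀ i x, x ∈ S' i → ∃ u : Fin R, x = i + g (Off.S u) - g Off.zero := by
    intro i x hx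
    simp only [S', Finset.mem_image, Finset.mem_univ, true_and] at hx
    obtain ⟨u, hu⟩ := hx
    exact ⟨_, hu.symm⟩
  have hzero : ∀ i : ZMod M, i = i + g Off.zero - g Off.zero := by
    intro i; ring
  -- impossible pairs of offsets
  have imp1 : ∀ (c : Coord (ZMod M) (EE M N r)) (l : Fin (N + 1)) (u : Fin R),
      inJ R c (Off.rho l u) = true → inJ R c Off.zero = true → False := by
    intro c l u
    rcases c with (i | e) | (i | e) <;> simp [inJ]
  have imp2 : ∀ (c : Coord (ZMod M) (EE M N r)) (l l' : Fin (N + 1)) (u : Fin R),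
      inJ R c (Off.rho l u) = true → inJ R c (Off.s l') = true → False := by
    intro c l l' u
    rcases c with (i | e) | (i | e) <;> simp [inJ]
  have imp3 : ∀ (c : Coord (ZMod M) (EE M N r)),
      inJ R c Off.r0 = true → inJ R c Off.zero = true → False := by
    intro c
    rcases c with (i | e) | (i | e) <;> simp [inJ]
  have imp4 : ∀ (c : Coord (ZMod M) (EE M N r)) (u : Fin R),
      inJ R c (Off.S u) = true → inJ R c Off.zero = true → False := by
    intro c u
    rcases c with (i | e) | (i | e) <;> simp [inJ]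
  refine exists_of_feistel (I := ZMod M) (E := EE M N r) _ a ?_ (tau M N R r) src tgt out r0 S S'
    ?_ ?_ ?_ ?_ ?_ ?_ ?_ ?_ ?_ ?_ ?_ ?_ ?_ ?_ ?_ ?_ ?_ ?_ ?_ ?_
  · -- cardinality
    rw [Fintype.card_sum, Fintype.card_prod, ZMod.card, Fintype.card_fin, Fintype.card_fin]
  · -- h1
    intro i
    ext x
    rw [mem_tau, Finset.mem_singleton]
    constructor
    · rintro ⟨j, hj, hx⟩
      cases j <;> simp [inJ] at hj
      rw [hx]; simp [base]
    · rintro rfl
      exact ⟨Off.zero, by simp [inJ], by simp [base]⟩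
  · -- h2
    intro e
    ext x
    rw [mem_tau, Finset.mem_insert, Finset.mem_singleton]
    constructor
    · rintro ⟨j, hj, hx⟩
      cases j <;> simp [inJ] at hj
      · left; rw [hx]; simp [base, src]
      · right; rw [hx, hj]; rfl
    · rintro (rfl | rfl)
      · exact ⟨Off.zero, by simp [inJ], by simp [base, src]⟩
      · exact ⟨Off.s (lab e), by simp [inJ], rfl⟩
  · -- hR
    intro e
    have : tau M N R r (Sum.inr (Sum.inr e)) = (univ : Finset (Fin R)).image
        (fun u => pos e + g (Off.rho (lab e) u) - g Off.zero) := by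
      ext x
      rw [mem_tau]
      simp only [Finset.mem_image, Finset.mem_univ, true_and]
      constructor
      · rintro ⟨j, hj, hx⟩
        cases j <;> simp [inJ] at hj
        rename_i l u
        exact ⟨u, by rw [hx, hj]; rfl⟩
      · rintro ⟨u, rfl⟩
        exact ⟨Off.rho (lab e) u, by simp [inJ], rfl⟩
    rw [this, Finset.card_image_of_injective, Finset.card_univ, Fintype.card_fin, hR]
    intro u u' h
    have := ginj (Off.rho (lab e) u) (Off.rho (lab e) u') (by simpa [g] using h)
    simpa using this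
  · -- hsrc
    intro i e he
    obtain ⟨l, rfl⟩ := (hmout i e).1 he
    rfl
  · -- hst
    intro e h
    have h1 : g Off.zero = g (Off.s (lab e)) := by
      simp only [src, tgt] at h
      linear_combination h
    have := ginj _ _ h1
    simp at this
  · -- hout
    intro i
    simp only [out, Finset.card_map, Finset.card_univ, Fintype.card_fin]
    exact hN
  · -- hinj
    intro i e he e' he' h
    obtain ⟨l, rfl⟩ := (hmout i e).1 he
    obtain ⟨l', rfl⟩ := (hmout i e').1 he'
    have h1 : g (Off.s l.castSucc) = g (Off.s l'.castSucc) := by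
      simp only [tgt, pos, lab] at h
      linear_combination h
    have := ginj _ _ h1
    simp at this
    rw [this]
  · -- htgt
    intro i e he
    obtain ⟨l, rfl⟩ := (hmout i e).1 he
    rw [mem_tau]
    exact ⟨Off.s l.castSucc, by simp [inJ], rfl⟩
  · -- hr0
    intro i
    rw [mem_tau]
    exact ⟨Off.r0, by simp [inJ], rfl⟩
  · -- hr0t
    intro i e he h
    obtain ⟨l, rfl⟩ := (hmout i e).1 he
    have h1 : g (Off.s l.castSucc) = g Off.r0 := by
      simp only [tgt, pos, lab, r0] at h
      linear_combination h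
    have := ginj _ _ h1
    simp at this
  · -- hr0S
    intro i h
    obtain ⟨u, hu⟩ := hmS i _ h
    have h1 : g Off.r0 = g (Off.S u) := by
      simp only [r0] at hu
      linear_combination hu
    have := ginj _ _ h1
    simp at this
  · -- hS
    intro i x hx
    obtain ⟨u, rfl⟩ := hmS i x hx
    rw [mem_tau]
    exact ⟨Off.S u, by simp [inJ], rfl⟩
  · -- hS'
    intro i x hx
    obtain ⟨u, rfl⟩ := hmS' i x hx
    rw [mem_tau]
    exact ⟨Off.S u, by simp [inJ], rfl⟩
  · -- hcS
    intro i
    simp only [S]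
    rw [Finset.card_image_of_injective, Finset.card_univ, Fintype.card_fin, hR]
    intro u u' h
    have := ginj (Off.S u) (Off.S u') (by simpa [g] using h)
    simpa using this
  · -- hcS'
    intro i
    simp only [S']
    rw [Finset.card_image_of_injective, Finset.card_univ, Fintype.card_fin]
    intro u u' h
    have := ginj (Off.S (Fin.castLE hR3 u)) (Off.S (Fin.castLE hR3 u')) (by simpa [g] using h)
    simpa using this
  · -- hlin
    intro c c' x hx y hy hx' hy' hxy
    exact tau_lin hr hM c c' x hx y hy hx' hy' hxy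
  · -- hu1
    intro e x hx c hxc
    obtain ⟨j, hj, hx⟩ := mem_tau.1 hx
    cases j <;> simp [inJ] at hj
    rename_i l u
    rw [hx] at hxc
    constructor
    · intro h
      rw [hzero (src e)] at h
      obtain ⟨h1, h2, _⟩ := m2 c (pos e) (Off.rho l u) Off.zero (by simp) hxc h
      exact imp1 c l u h1 h2
    · intro h
      obtain ⟨h1, h2, _⟩ := m2 c (pos e) (Off.rho l u) (Off.s (lab e)) (by simp) hxc h
      exact imp2 c l _ u h1 h2
  · -- hu0
    intro i c h h'
    rw [hzero i] at h'
    obtain ⟨h1, h2, _⟩ := m2 c i Off.r0 Off.zero (by simp) h h'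
    exact imp3 c h1 h2
  · -- huS
    intro i x hx c h h'
    obtain ⟨u, rfl⟩ := hmS i x hx
    rw [hzero i] at h'
    obtain ⟨h1, h2, _⟩ := m2 c i (Off.S u) Off.zero (by simp) h h'
    exact imp4 c u h1 h2
  · -- huS'
    intro i x hx c h h'
    obtain ⟨u, rfl⟩ := hmS' i x hx
    rw [hzero i] at h'
    obtain ⟨h1, h2, _⟩ := m2 c i (Off.S u) Off.zero (by simp) h h'
    exact imp4 c u h1 h2

/-- For `k = 2 ^ (a + 1) + 2`, homogeneous bent functions exist in all large even dimensions. -/
theorem homBent_two (a : ℕ) : ∃ N0 : ℕ, 2 ≤ N0 ∧ ∀ n : ℕ, N0 < n → Even n →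
    HomBent n (2 ^ (a + 1) + 2) := by
  set N := 2 ^ (a + 2) - 2 with hN
  set B := 2 * 3 ^ Fintype.card (Off (2 ^ (a + 2) - 2) (2 ^ (a + 2) - 1)) with hB
  refine ⟨2 * ((N + 1) * (B + N + 2)) + 2, by omega, ?_⟩
  rintro n hn ⟨m, rfl⟩
  have hm : (N + 1) * (B + N + 2) < m := by omega
  have hdiv := Nat.div_add_mod m (N + 1)
  have hmod : m % (N + 1) < N + 1 := Nat.mod_lt _ (by omega)
  have hbig : B + N + 2 ≤ m / (N + 1) := by
    rw [Nat.le_div_iff_mul_le (by omega)]
    rw [mul_comm] at hm
    exact hm.le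
  have key := homBent_inst a (m / (N + 1)) (m % (N + 1)) (by omega) (by omega)
  have hval : 2 * (m / (N + 1) + (m / (N + 1) * (2 ^ (a + 2) - 2) + m % (N + 1))) = m + m := by
    rw [← hN]
    have : (N + 1) * (m / (N + 1)) = m / (N + 1) + m / (N + 1) * N := by ring
    omega
  rwa [hval] at key

end inst

end Pool.Agent.P47443c
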